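import Pool.Agent.X144.Fi.Pt

/-!
# The cost of a small speed
-/

set_option autoImplicit false

namespace Pool.Agent.X144.Fi

open Pool.Agent.TH795.EP Pool.Agent.TH795.EP2 Pool.Agent.TH795.SE2 Pool.Agent.TH262.SawL Pool.Agent.Y981.L2 Pool.Agent.Y981.L2X H981 Finset Filter Topology

theorem R_low_half : ∃ C : ℝ, 0 < C ∧ ∃ v₀ : ℝ, 0 < v₀ ∧ v₀ < 1 / 4 ∧ ∀ v : ℝ, 0 < v → v ≤ v₀ →
    v ^ (C * Real.log (Real.log (1 / v))) ≤ R (v / 2) := by
  obtain ⟨C, hC, h⟩ := R_low
  have hLL : Tendsto (fun v : ℝ => Real.log (Real.log (1 / v))) (𝓝[>] 0) atTop :=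
    Real.tendsto_log_atTop.comp tendsto_L
  have hhalf : Tendsto (fun v : ℝ => v / 2) (𝓝[>] 0) (𝓝[>] 0) := by
    have h1 := tendsto_pow_zero (C := 1 / 2) (by norm_num) one_pos
    refine h1.congr ?_
    intro v
    rw [Real.rpow_one]
    ring
  have hev := ((hhalf.eventually h).and (hLL.eventually_ge_atTop (Real.log 2))).and
    ((tendsto_L.eventually_ge_atTop 2).and (Ioo_mem_nhdsGT (show (0 : ℝ) < 1 / 4 by norm_num)))
  obtain ⟨u, hu0, hu⟩ := mem_nhdsGT_iff_exists_Ioo_subset.1 hev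
  have hu0' : 0 < u := hu0
  refine ⟨4 * C, by positivity, min (u / 2) (1 / 8), lt_min (by linarith) (by norm_num),
    lt_of_le_of_lt (min_le_right _ _) (by norm_num), ?_⟩
  intro v hv0 hv
  have hvu : v < u := by
    have := min_le_left (u / 2) (1 / 8)
    linarith
  obtain ⟨⟨h1, h2⟩, h3, h4⟩ := hu ⟨hv0, hvu⟩
  refine le_trans ?_ h1
  have hv1 : v < 1 / 4 := h4.2
  obtain ⟨L, hL⟩ : ∃ L, L = Real.log (1 / v) := ⟨_, rfl⟩
  rw [← hL] at h2 h3 ⊢
  have h5 : Real.log (1 / (v / 2)) = L + Real.log 2 := by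
    have e : 1 / (v / 2) = 1 / v * 2 := by field_simp
    rw [e, Real.log_mul (by positivity) (by norm_num), hL]
  rw [h5]
  have hl2 := Real.log_two_lt_d9
  have hl2' := Real.log_two_gt_d9
  have h6 : Real.log (L + Real.log 2) ≤ 2 * Real.log L := by
    have h7 : L + Real.log 2 ≤ 2 * L := by linarith
    have h8 := Real.log_le_log (by linarith) h7
    rw [Real.log_mul (by norm_num) (by linarith)] at h8
    linarith
  have h7 : 0 ≤ Real.log (L + Real.log 2) := Real.log_nonneg (by linarith)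
  have h8 : v ^ 2 ≤ v / 2 := by nlinarith
  calc v ^ (4 * C * Real.log L) ≤ v ^ (2 * (C * Real.log (L + Real.log 2))) := by
        apply Real.rpow_le_rpow_of_exponent_ge hv0 (by linarith)
        nlinarith
    _ = (v ^ 2) ^ (C * Real.log (L + Real.log 2)) := by
        rw [Real.rpow_mul hv0.le]
        norm_num
    _ ≤ (v / 2) ^ (C * Real.log (L + Real.log 2)) :=
        Real.rpow_le_rpow (by positivity) h8 (by positivity)

/-- upper bound of the tail by the rate function on the axis -/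
theorem far_R : ∃ K : ℝ, 0 ≤ K ∧ ∀ n : ℕ, 2 ≤ n → ∀ v : ℝ, 0 ≤ v →
    far n (v * n) ≤ Real.exp (-(n * R (v / 2)) + K * Real.log n ^ 2) := by
  obtain ⟨K, hK, hfar⟩ := far_le
  refine ⟨K + 16, by positivity, fun n hn v hv => ?_⟩
  have hn0 : (0 : ℝ) < n := by exact_mod_cast (by omega : 0 < n)
  have hn2 : (2 : ℝ) ≤ n := by exact_mod_cast hn
  have hlog2 : Real.log 2 ≤ Real.log n := Real.log_le_log (by norm_num) hn2
  have hl2 := Real.log_two_gt_d9
  have h1 : ∃ h : ℝ, 0 ≤ h ∧ R (v / 2) - 1 / n < h * (v / 2) - psi h := by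
    by_contra hcon
    push Not at hcon
    have := R_le_of (v := v / 2) (by positivity) hcon
    have h3 : 0 < 1 / (n : ℝ) := by positivity
    linarith
  obtain ⟨h, h0, h2⟩ := h1
  refine (hfar n hn (v * n) h h0).trans (Real.exp_le_exp.2 ?_)
  have h3 := mul_le_mul_of_nonneg_left h2.le hn0.le
  have h4 : (n : ℝ) * (R (v / 2) - 1 / n) = n * R (v / 2) - 1 := by field_simp
  rw [h4] at h3
  have h5 : 3 ≤ 16 * Real.log n ^ 2 := by nlinarith
  nlinarith

theorem quad_two {K v : ℝ} (hK : 0 < K) (hv0 : 0 < v) (hv : v ≤ 1 / 4)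
    (h : ∀ v : ℝ, 0 < v → v ≤ 1 / 2 → R v ≤ K * v ^ 2 * Real.log (1 / v) ^ 2) :
    R (2 * v) ≤ 4 * K * v ^ 2 * Real.log (1 / v) ^ 2 := by
  refine (h (2 * v) (by linarith) (by linarith)).trans ?_
  have h1 : Real.log (1 / (2 * v)) ≤ Real.log (1 / v) := by
    apply Real.log_le_log (by positivity)
    apply one_div_le_one_div_of_le hv0
    linarith
  have h2 : 0 ≤ Real.log (1 / (2 * v)) := by
    apply Real.log_nonneg
    rw [le_div_iff₀ (by linarith)]
    linarith
  have h3 : Real.log (1 / (2 * v)) ^ 2 ≤ Real.log (1 / v) ^ 2 := by nlinarith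
  have h4 := mul_le_mul_of_nonneg_left h3 (show 0 ≤ K * (2 * v) ^ 2 by positivity)
  nlinarith

/-- lower bound of the tail -/
theorem far_low : ∃ K : ℝ, 0 < K ∧ ∀ n : ℕ, 2 ≤ n → ∀ v : ℝ, 0 < v → v ≤ 1 / 4 →
    Real.exp (-(K * (n * v ^ 2 * Real.log (1 / v) ^ 2 + Real.log n ^ 2))) ≤ far n (v * n) := by
  obtain ⟨K1, hK1, hfar⟩ := le_far
  obtain ⟨K2, hK2, hR⟩ := R_quad
  have hmu : 0 ≤ Real.log mu := Real.log_nonneg one_le_mu
  refine ⟨K1 + 4 * K2 + 16 * (Real.log mu + 1), by positivity, fun n hn v hv0 hv => ?_⟩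
  have hn0 : (0 : ℝ) < n := by exact_mod_cast (by omega : 0 < n)
  have hn2 : (2 : ℝ) ≤ n := by exact_mod_cast hn
  have hlog2 : Real.log 2 ≤ Real.log n := Real.log_le_log (by norm_num) hn2
  have hl2 := Real.log_two_gt_d9
  have hL : 0.48 ≤ Real.log n ^ 2 := by nlinarith
  have hL' : 0 ≤ Real.log (n : ℝ) ^ 2 := by positivity
  have hv2 : 0 ≤ (n : ℝ) * v ^ 2 * Real.log (1 / v) ^ 2 := by positivity
  have hsmul : ∀ k : ℕ, k ≤ n → n * R ((k : ℝ) / n) ≤ k * Real.log mu := by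
    intro k hk
    have hk1 : (k : ℝ) / n ≤ 1 := by rw [div_le_one hn0]; exact_mod_cast hk
    have h1 := R_smul (v := 1) (t := (k : ℝ) / n) zero_le_one le_rfl (by positivity) hk1
    rw [mul_one] at h1
    have h2 := R_le zero_le_one le_rfl
    have h3 := mul_le_mul_of_nonneg_left h2 (show 0 ≤ (k : ℝ) / n by positivity)
    have h4 := mul_le_mul_of_nonneg_left (h1.trans h3) hn0.le
    have e : (n : ℝ) * ((k : ℝ) / n * Real.log mu) = k * Real.log mu := by field_simp
    rwa [e] at h4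
  rcases le_or_gt n 3 with hn3 | hn3
  · have h1 := hfar n n hn (by omega) le_rfl (by simp) (v * n) (by nlinarith)
    refine le_trans (Real.exp_le_exp.2 ?_) h1
    have h2 := hsmul n le_rfl
    have h3 : (n : ℝ) ≤ 3 := by exact_mod_cast hn3
    have h4 : (n : ℝ) * Real.log mu ≤ 3 * Real.log mu := mul_le_mul_of_nonneg_right h3 hmu
    have h5 : 16 * (Real.log mu + 1) * 0.48 ≤ 16 * (Real.log mu + 1) * Real.log n ^ 2 :=
      mul_le_mul_of_nonneg_left hL (by positivity)
    have h6 : 0 ≤ 4 * K2 * Real.log n ^ 2 := by positivity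
    have h7 : 0 ≤ (K1 + 4 * K2 + 16 * (Real.log mu + 1)) *
      (n * v ^ 2 * Real.log (1 / v) ^ 2) := by positivity
    nlinarith
  · obtain ⟨k, hk1, hk2, hk3⟩ := adjust n (x := v * n + 2) (by nlinarith)
    have hn4 : (4 : ℝ) ≤ n := by exact_mod_cast hn3
    have hk0 : (0 : ℝ) < k := by nlinarith
    have hk0' : 1 ≤ k := by
      have : 0 < k := by exact_mod_cast hk0
      omega
    have hkn : (k : ℝ) ≤ n := by nlinarith
    have hkn' : k ≤ n := by exact_mod_cast hkn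
    have h1 := hfar n k hn hk0' hkn' hk3 (v * n) (by linarith)
    refine le_trans (Real.exp_le_exp.2 ?_) h1
    rcases le_or_gt 2 (v * n) with h2 | h2
    · have h3 : (k : ℝ) / n ≤ 2 * v := by
        rw [div_le_iff₀ hn0]
        linarith
      have h4 := R_mono (by positivity) h3 (by linarith)
      have h5 := mul_le_mul_of_nonneg_left (h4.trans (quad_two hK2 hv0 hv hR)) hn0.le
      have e : (n : ℝ) * (4 * K2 * v ^ 2 * Real.log (1 / v) ^ 2) =
        4 * K2 * (n * v ^ 2 * Real.log (1 / v) ^ 2) := by ring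
      rw [e] at h5
      have h6 : 0 ≤ (K1 + 16 * (Real.log mu + 1)) * (n * v ^ 2 * Real.log (1 / v) ^ 2) := by
        positivity
      have h7 : 0 ≤ (4 * K2 + 16 * (Real.log mu + 1)) * Real.log n ^ 2 := by positivity
      nlinarith
    · have h3 := hsmul k hkn'
      have h4 : (k : ℝ) ≤ 4 := by linarith
      have h5 : (k : ℝ) * Real.log mu ≤ 4 * Real.log mu := mul_le_mul_of_nonneg_right h4 hmu
      have h6 : 16 * (Real.log mu + 1) * 0.48 ≤ 16 * (Real.log mu + 1) * Real.log n ^ 2 :=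
        mul_le_mul_of_nonneg_left hL (by positivity)
      have h7 : 0 ≤ 4 * K2 * Real.log n ^ 2 := by positivity
      have h8 : 0 ≤ (K1 + 4 * K2 + 16 * (Real.log mu + 1)) *
        (n * v ^ 2 * Real.log (1 / v) ^ 2) := by positivity
      nlinarith

end Pool.Agent.X144.Fi
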