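import Pool.Agent.X144.Fi.Blob
import Pool.Agent.Y981.L2X.High

/-!
# Explicit bounds of the rate function at small speeds
-/

set_option autoImplicit false

namespace Pool.Agent.X144.Fi

open Pool.Agent.TH795.EP Pool.Agent.TH795.EP2 Pool.Agent.TH795.SE2 Pool.Agent.TH262.SawL Pool.Agent.Y981.L2 Pool.Agent.Y981.L2X H981 Finset Filter Topology

/-- the constraint defining the mass is closed -/
theorem psi_mass {e : ℝ} (he : 0 < e) : psi (mass e) ≤ e := by
  have hm := mass_pos he
  apply Pool.Agent.Y981.L2.psi_le hm.le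
  intro v hv0 hv1
  by_contra hcon
  push Not at hcon
  have hR := R_nonneg hv0 hv1
  have hv : 0 < v := by
    rcases eq_or_lt_of_le hv0 with h | h
    · rw [← h] at hcon hR
      linarith
    · exact h
  obtain ⟨s, hs⟩ : ∃ s, s = mass e * v - R v - e := ⟨_, rfl⟩
  have hs0 : 0 < s := by rw [hs]; linarith
  obtain ⟨h', hh'⟩ : ∃ h', h' = max (mass e - s / 2 / v) (mass e / 2) := ⟨_, rfl⟩
  have h1 : h' < mass e := by
    rw [hh']
    apply max_lt
    · have : 0 < s / 2 / v := by positivity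
      linarith
    · linarith
  have h2 : mass e - s / 2 / v ≤ h' := by rw [hh']; exact le_max_left _ _
  have h3 : mass e / 2 ≤ h' := by rw [hh']; exact le_max_right _ _
  have h4 := psi_le_of_lt he.le (by linarith : 0 ≤ h') h1
  have h5 := young hv0 hv1 h'
  have h6 := mul_le_mul_of_nonneg_right h2 hv0
  have h7 : (mass e - s / 2 / v) * v = mass e * v - s / 2 := by field_simp
  linarith

/-- upper bound of the tail of the end point by the mass -/
theorem far_mass : ∃ K : ℝ, 0 ≤ K ∧ ∀ n : ℕ, 2 ≤ n → ∀ r e : ℝ, 0 < e →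
    far n r ≤ Real.exp (-(mass e * r / 2) + n * e + K * Real.log n ^ 2) := by
  obtain ⟨K, hK, hfar⟩ := far_le
  refine ⟨K + 8, by positivity, fun n hn r e he => ?_⟩
  have hn2 : (2 : ℝ) ≤ n := by exact_mod_cast hn
  have hlog2 : Real.log 2 ≤ Real.log n := Real.log_le_log (by norm_num) hn2
  have hl2 := Real.log_two_gt_d9
  refine (hfar n hn r (mass e) (mass_pos he).le).trans (Real.exp_le_exp.2 ?_)
  have h1 := mul_le_mul_of_nonneg_left (psi_mass he) (Nat.cast_nonneg n)
  have h2 : 2 ≤ 8 * Real.log n ^ 2 := by nlinarith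
  linarith

/-- the square of the logarithm of the length in terms of the blobs -/
theorem log_blob {n N : ℕ} (hN : 2 ≤ N) (hn : N ≤ n) :
    Real.log n ^ 2 ≤ 12 * ((n : ℝ) / N * Real.log N ^ 2) := by
  have hN0 : (0 : ℝ) < N := by exact_mod_cast (by omega : 0 < N)
  have hn0 : (0 : ℝ) < n := by exact_mod_cast (by omega : 0 < n)
  have hN2 : (2 : ℝ) ≤ N := by exact_mod_cast hN
  have hNn : (N : ℝ) ≤ n := by exact_mod_cast hn
  have hlog2 : Real.log 2 ≤ Real.log N := Real.log_le_log (by norm_num) hN2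
  have hl2 := Real.log_two_gt_d9
  obtain ⟨w, hw⟩ : ∃ w, w = Real.log N := ⟨_, rfl⟩
  obtain ⟨u, hu⟩ : ∃ u, u = Real.log n := ⟨_, rfl⟩
  have hwu : w ≤ u := by rw [hw, hu]; exact Real.log_le_log hN0 hNn
  rw [← hw, ← hu]
  rw [← hw] at hlog2
  have hd : 0 ≤ u - w := by linarith
  have h1 := Real.quadratic_le_exp_of_nonneg hd
  have h2 : Real.exp (u - w) = (n : ℝ) / N := by
    rw [Real.exp_sub, hu, hw, Real.exp_log hn0, Real.exp_log hN0]
  rw [h2] at h1
  have hw2 : 0.48 ≤ w ^ 2 := by nlinarith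
  have h3 : 1 + (u - w) ^ 2 / 2 ≤ (n : ℝ) / N := by linarith
  have h4 := mul_le_mul_of_nonneg_right h3 (sq_nonneg w)
  have h5 : 0.48 * (u - w) ^ 2 ≤ w ^ 2 * (u - w) ^ 2 :=
    mul_le_mul_of_nonneg_right hw2 (sq_nonneg _)
  nlinarith [sq_nonneg (u - 2 * w), sq_nonneg (u - w)]

/-- the rate function is at most quadratic up to logarithms -/
theorem R_quad : ∃ K : ℝ, 0 < K ∧ ∀ v : ℝ, 0 < v → v ≤ 1 / 2 →
    R v ≤ K * v ^ 2 * Real.log (1 / v) ^ 2 := by
  obtain ⟨K, hK, hR⟩ := R_diff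
  refine ⟨512 * K + 2048 * (Real.log mu + 1), ?_, ?_⟩
  · have := one_le_mu
    have h2 : 0 ≤ Real.log mu := Real.log_nonneg this
    positivity
  intro v hv hv2
  have hmu : 0 ≤ Real.log mu := Real.log_nonneg one_le_mu
  have hl2 := Real.log_two_gt_d9
  have hL : Real.log 2 ≤ Real.log (1 / v) := by
    apply Real.log_le_log (by norm_num)
    rw [le_div_iff₀ hv]
    linarith
  obtain ⟨L, hLL⟩ : ∃ L, L = Real.log (1 / v) := ⟨_, rfl⟩
  rw [← hLL] at hL ⊢
  have hL2 : 0.48 ≤ L ^ 2 := by nlinarith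
  rcases le_or_gt v (1 / 16) with h1 | h1
  · obtain ⟨n, hn⟩ : ∃ n, n = ⌊1 / (64 * v ^ 2)⌋₊ := ⟨_, rfl⟩
    have hx : 4 ≤ 1 / (64 * v ^ 2) := by
      rw [le_div_iff₀ (by positivity)]
      nlinarith
    have hn1 : (n : ℝ) ≤ 1 / (64 * v ^ 2) := by rw [hn]; exact Nat.floor_le (by linarith)
    have hn2 : 1 / (64 * v ^ 2) < (n : ℝ) + 1 := by rw [hn]; exact Nat.lt_floor_add_one _
    have hn3 : (2 : ℝ) ≤ n := by linarith
    have hn4 : 2 ≤ n := by exact_mod_cast hn3
    have hn0 : (0 : ℝ) < n := by linarith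
    have hs : 0 < Real.sqrt n := Real.sqrt_pos.2 hn0
    have hsq : Real.sqrt n ^ 2 = n := Real.sq_sqrt hn0.le
    have h2 : v ≤ 1 / (8 * Real.sqrt n) := by
      rw [le_div_iff₀ (by positivity)]
      have h3 : (8 * v * Real.sqrt n) ^ 2 ≤ 1 ^ 2 := by
        rw [mul_pow, hsq]
        have := mul_le_mul_of_nonneg_right hn1 (show (0 : ℝ) ≤ 64 * v ^ 2 by positivity)
        have e : 1 / (64 * v ^ 2) * (64 * v ^ 2) = 1 := by field_simp
        nlinarith
      have h4 := abs_le_of_sq_le_sq h3 (by norm_num)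
      have h5 := (abs_le.1 h4).2
      linarith
    have h3 : 1 / (8 * Real.sqrt n) ≤ 1 := by
      rw [div_le_one (by positivity)]
      have : 1 ≤ Real.sqrt n := Real.one_le_sqrt.2 (by linarith)
      linarith
    have h4 := R_mono hv.le h2 h3
    refine h4.trans ((hR n hn4).trans ?_)
    have h5 : 1 / (128 * v ^ 2) ≤ n := by
      have e : 1 / (64 * v ^ 2) = 2 * (1 / (128 * v ^ 2)) := by field_simp; norm_num
      rw [e] at hn2 hx
      linarith
    have h6 : Real.log n ≤ 2 * L := by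
      have h7 : (n : ℝ) ≤ (1 / v) ^ 2 := by
        refine hn1.trans ?_
        rw [div_pow, one_pow]
        apply div_le_div_of_nonneg_left one_pos.le (by positivity)
        nlinarith [sq_nonneg v]
      have h8 := Real.log_le_log hn0 h7
      rw [Real.log_pow] at h8
      push_cast at h8
      rw [hLL]
      exact h8
    have h7 : 0 ≤ Real.log n := Real.log_nonneg (by linarith)
    have h8 : Real.log n ^ 2 ≤ 4 * L ^ 2 := by nlinarith
    calc K * Real.log n ^ 2 / n ≤ K * (4 * L ^ 2) / n := by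
          apply div_le_div_of_nonneg_right _ hn0.le
          exact mul_le_mul_of_nonneg_left h8 hK
      _ ≤ K * (4 * L ^ 2) / (1 / (128 * v ^ 2)) := by
          apply div_le_div_of_nonneg_left (by positivity) (by positivity) h5
      _ = 512 * K * v ^ 2 * L ^ 2 := by field_simp; ring
      _ ≤ _ := by
          have : 0 ≤ 2048 * (Real.log mu + 1) * v ^ 2 * L ^ 2 := by positivity
          nlinarith
  · have h2 := R_le hv.le (show v ≤ 1 by linarith)
    have h3 : 1 / 256 ≤ v ^ 2 := by nlinarith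
    have h4 : 1 / 256 * 0.48 ≤ v ^ 2 * L ^ 2 := by
      apply mul_le_mul h3 hL2 (by norm_num) (sq_nonneg v)
    have h5 : 0 ≤ 512 * K * (v ^ 2 * L ^ 2) := by positivity
    have h6 : 2048 * (Real.log mu + 1) * (1 / 256 * 0.48) ≤
        2048 * (Real.log mu + 1) * (v ^ 2 * L ^ 2) :=
      mul_le_mul_of_nonneg_left h4 (by positivity)
    nlinarith

theorem tendsto_L : Tendsto (fun v : ℝ => Real.log (1 / v)) (𝓝[>] 0) atTop := by
  have h1 : Tendsto (fun v : ℝ => v⁻¹) (𝓝[>] 0) atTop := tendsto_inv_nhdsGT_zero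
  refine (Real.tendsto_log_atTop.comp h1).congr ?_
  intro v
  simp [Function.comp]

/-- **The rate function at small speeds is at least quasi-polynomial.** -/
theorem R_low : ∃ C : ℝ, 0 < C ∧ ∀ᶠ v in 𝓝[>] (0 : ℝ),
    v ^ (C * Real.log (Real.log (1 / v))) ≤ R v := by
  obtain ⟨c, hc, hm⟩ := Pool.Agent.Y981.L2X.le_mass
  obtain ⟨C, hC⟩ : ∃ C, C = 4 / c := ⟨_, rfl⟩
  have hC0 : 0 < C := by rw [hC]; positivity
  refine ⟨C, hC0, ?_⟩
  have hLL : Tendsto (fun v : ℝ => Real.log (Real.log (1 / v))) (𝓝[>] 0) atTop :=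
    Real.tendsto_log_atTop.comp tendsto_L
  have hprod : Tendsto (fun v : ℝ => C * (Real.log (1 / v) * Real.log (Real.log (1 / v))))
      (𝓝[>] 0) atTop := (tendsto_L.atTop_mul_atTop₀ hLL).const_mul_atTop hC0
  have he : Tendsto (fun v : ℝ => Real.exp (-(C * (Real.log (1 / v) *
      Real.log (Real.log (1 / v)))))) (𝓝[>] 0) (𝓝[>] 0) := by
    rw [tendsto_nhdsWithin_iff]
    constructor
    · exact Real.tendsto_exp_neg_atTop_nhds_zero.comp hprod
    · exact Eventually.of_forall fun v => Real.exp_pos _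
  have hsmall : ∀ᶠ v in 𝓝[>] (0 : ℝ), C * Real.log (Real.log (1 / v)) ≤ Real.log (1 / v) := by
    have h1 := (Real.isLittleO_log_id_atTop.const_mul_left C).bound (show (0 : ℝ) < 1 by norm_num)
    filter_upwards [tendsto_L.eventually h1, tendsto_L.eventually_ge_atTop 1] with v h2 h3
    simp only [id, one_mul, Real.norm_eq_abs] at h2
    have h4 := (le_abs_self _).trans h2
    rwa [abs_of_nonneg (by linarith)] at h4
  filter_upwards [he.eventually hm, hsmall, tendsto_L.eventually_ge_atTop 3,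
    hLL.eventually_ge_atTop 1, Ioo_mem_nhdsGT (show (0 : ℝ) < 1 / 2 by norm_num), hprod.eventually_ge_atTop 3]
    with v h1 h2 h3 h4 h5 h6
  obtain ⟨L, hL⟩ : ∃ L, L = Real.log (1 / v) := ⟨_, rfl⟩
  rw [← hL] at h1 h2 h3 h4 h6 ⊢
  obtain ⟨l, hl⟩ : ∃ l, l = Real.log L := ⟨_, rfl⟩
  rw [← hl] at h1 h2 h4 h6 ⊢
  obtain ⟨A, hA⟩ : ∃ A, A = C * (L * l) := ⟨_, rfl⟩
  rw [← hA] at h1 h6
  have hv0 : 0 < v := h5.1
  have hL0 : 0 < L := by linarith
  have hA0 : 0 < A := by linarith
  have hexp : Real.log (1 / Real.exp (-A)) = A := by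
    rw [one_div, Real.log_inv, Real.log_exp, neg_neg]
  rw [hexp] at h1
  -- `log A ≤ 2 log L`
  have h7 : Real.log A ≤ 2 * l := by
    have h8 : A ≤ L ^ 2 := by
      rw [hA]
      nlinarith
    have h9 := Real.log_le_log hA0 h8
    rw [Real.log_pow] at h9
    push_cast at h9
    rw [hl]
    exact h9
  have h8 : 0 < Real.log A := Real.log_pos (by linarith)
  have h9 : 2 * L ≤ c * A / Real.log A := by
    rw [le_div_iff₀ h8]
    have h10 : 2 * L * Real.log A ≤ 2 * L * (2 * l) := mul_le_mul_of_nonneg_left h7 (by linarith)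
    have h11 : c * A = 4 * (L * l) := by rw [hA, hC]; field_simp
    rw [h11]
    linarith
  have h10 : Real.exp (-A) ^ (1 - c / Real.log A) = Real.exp (-A) * Real.exp (c * A / Real.log A) := by
    rw [← Real.exp_mul, ← Real.exp_add]
    congr 1
    ring
  rw [h10] at h1
  have h11 : v * Real.exp L = 1 := by
    rw [hL, one_div, Real.log_inv, Real.exp_neg, Real.exp_log hv0]
    field_simp
  have h12 : Real.exp L * Real.exp L ≤ Real.exp (c * A / Real.log A) := by
    rw [← Real.exp_add]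
    exact Real.exp_le_exp.2 (by linarith)
  have h13 : 2 ≤ Real.exp L := by
    have := Real.add_one_le_exp L
    linarith
  have h14 := Pool.Agent.Y981.L2X.le_R hv0.le (by linarith [h5.2] : v ≤ 1) (Real.exp_pos (-A))
  have h15 : 2 * Real.exp (-A) ≤ v * mass (Real.exp (-A)) := by
    have hE := Real.exp_pos (-A)
    have h16 : v * (Real.exp (-A) * (Real.exp L * Real.exp L)) ≤ v * mass (Real.exp (-A)) := by
      apply mul_le_mul_of_nonneg_left _ hv0.le
      exact le_trans (mul_le_mul_of_nonneg_left h12 hE.le) h1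
    have h17 : v * (Real.exp (-A) * (Real.exp L * Real.exp L)) =
        (v * Real.exp L) * (Real.exp (-A) * Real.exp L) := by ring
    rw [h17, h11, one_mul] at h16
    nlinarith
  have h16 : v ^ (C * l) = Real.exp (-A) := by
    rw [Real.rpow_def_of_pos hv0]
    congr 1
    have : Real.log v = -L := by rw [hL, one_div, Real.log_inv, neg_neg]
    rw [this, hA]
    ring
  rw [h16]
  linarith

end Pool.Agent.X144.Fi
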