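import Pool.Agent.X144.Fi.Sym
import Pool.Agent.Y981.L2X.Low

/-!
# Blobs: lower and upper bounds of the end point law in terms of the size at shorter lengths
-/

set_option autoImplicit false

namespace Pool.Agent.X144.Fi

open Pool.Agent.TH795.EP Pool.Agent.TH795.EP2 Pool.Agent.TH795.SE2 Pool.Agent.TH262.SawL Pool.Agent.Y981.L2 Pool.Agent.Y981.L2X H981 Finset Filter Topology

theorem R_le_of {v s : ℝ} (h0 : 0 ≤ v) (hs : ∀ h : ℝ, 0 ≤ h → h * v - psi h ≤ s) : R v ≤ s := by
  apply ciSup_le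
  intro h
  have h1 := Lam_ge h
  have h2 := hs |h.1| (abs_nonneg _)
  have h3 : h.1 * v ≤ |h.1| * v := mul_le_mul_of_nonneg_right (le_abs_self _) h0
  simp only [mul_zero, add_zero]
  linarith

theorem msd_pos {n : ℕ} (hn : 1 ≤ n) : 1 ≤ msd n := by
  unfold msd
  have hc := c_pos n
  rw [le_div_iff₀ hc, one_mul]
  unfold c
  rw [Finset.card_eq_sum_ones, Nat.cast_sum]
  apply Finset.sum_le_sum
  intro w hw
  rw [mem_fs] at hw
  have h1 := one_le_nq hw.1 (by rintro rfl; have := hw.2; simp at this; omega)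
  push_cast
  exact_mod_cast h1

theorem msd_le_sq (n : ℕ) : msd n ≤ (n : ℝ) ^ 2 := by
  have h1 := msd_le (n := n) (r := 0) le_rfl
  have h2 : far n 0 ≤ 1 := by
    unfold far
    have hc := c_pos n
    rw [div_le_one hc]
    unfold c
    norm_cast
    apply Finset.card_le_card
    intro w hw
    rw [mem_fs] at hw ⊢
    exact ⟨hw.1.1, hw.2⟩
  have h3 := mul_le_mul_of_nonneg_left h2 (sq_nonneg (n : ℝ))
  linarith

/-- the rate function at the speed of the walk of length `N` -/
theorem R_blob : ∃ K : ℝ, 0 ≤ K ∧ ∀ N : ℕ, 2 ≤ N →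
    R (Real.sqrt (msd N) / (4 * N)) ≤ K * Real.log N ^ 2 / N := by
  obtain ⟨K, hK, hfar⟩ := far_le
  refine ⟨K + 16, by positivity, fun N hN => ?_⟩
  have hN0 : (0 : ℝ) < N := by exact_mod_cast (by omega : 0 < N)
  have hN2 : (2 : ℝ) ≤ N := by exact_mod_cast hN
  have hlog := log_pos' hN
  have hm1 := msd_pos (show 1 ≤ N by omega)
  obtain ⟨D, hD⟩ : ∃ D, D = msd N := ⟨_, rfl⟩
  rw [← hD] at hm1 ⊢
  have hsq : Real.sqrt D ^ 2 = D := Real.sq_sqrt (by linarith)
  have hs0 := Real.sqrt_nonneg D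
  apply R_le_of (by positivity)
  intro h h0
  have h1 := hfar N hN (Real.sqrt D / 2) h h0
  have h2 := msd_le (n := N) (r := Real.sqrt D / 2) (by positivity)
  rw [← hD] at h2
  have h3 : 1 / (2 * (N : ℝ) ^ 2) ≤ far N (Real.sqrt D / 2) := by
    rw [div_le_iff₀ (by positivity)]
    have e : (Real.sqrt D / 2) ^ 2 = D / 4 := by rw [div_pow, hsq]; ring
    rw [e] at h2
    linarith
  have h4 := Real.log_le_log (by positivity) (h3.trans h1)
  rw [Real.log_exp, Real.log_div one_ne_zero (by positivity), Real.log_one,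
    Real.log_mul (by norm_num) (by positivity), Real.log_pow] at h4
  push_cast at h4
  have hlog2 : Real.log 2 ≤ Real.log N := Real.log_le_log (by norm_num) hN2
  have hl2 := Real.log_two_gt_d9
  have h5 : 2 + 3 * Real.log N ≤ 16 * Real.log N ^ 2 := by nlinarith
  rw [le_div_iff₀ hN0]
  have h6 : (h * (Real.sqrt D / (4 * N)) - psi h) * N = h * (Real.sqrt D / 2) / 2 - N * psi h := by
    field_simp
    ring
  rw [h6]
  nlinarith

/-- the rate function at the speed of the correlation length -/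
theorem R_xi {e v : ℝ} (he : 0 < e) (hv : 0 ≤ v) (h : v * mass e ≤ e) : R v ≤ e := by
  apply le_of_forall_pos_le_add
  intro d hd
  obtain ⟨e', he', h4⟩ := R_le_exists (v := v) hv hd
  rcases le_or_gt e' e with h5 | h5
  · have h6 := mul_le_mul_of_nonneg_left (mass_mono he'.le h5) hv
    linarith
  · have h6 := mul_le_mul_of_nonneg_left (mass_smul he h5.le) hv
    have h7 : v * (e' / e * mass e) = e' / e * (v * mass e) := by ring
    have h8 : e' / e * (v * mass e) ≤ e' / e * e := mul_le_mul_of_nonneg_left h (by positivity)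
    have h9 : e' / e * e = e' := by field_simp
    linarith

/-- the rate function at the diffusive speed -/
theorem R_diff : ∃ K : ℝ, 0 ≤ K ∧ ∀ N : ℕ, 2 ≤ N →
    R (1 / (8 * Real.sqrt N)) ≤ K * Real.log N ^ 2 / N := by
  obtain ⟨K, hK, hkey⟩ := key
  refine ⟨K + 8, by positivity, fun N hN => ?_⟩
  have hN0 : (0 : ℝ) < N := by exact_mod_cast (by omega : 0 < N)
  have hN2 : (2 : ℝ) ≤ N := by exact_mod_cast hN
  have hs : 0 < Real.sqrt N := Real.sqrt_pos.2 hN0
  have hsq : Real.sqrt N ^ 2 = N := Real.sq_sqrt hN0.le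
  have hlog2 : Real.log 2 ≤ Real.log N := Real.log_le_log (by norm_num) hN2
  have hl2 := Real.log_two_gt_d9
  apply R_le_of (by positivity)
  intro h h0
  have h1 := hkey N hN h h0
  rw [le_div_iff₀ hN0]
  have h6 : (h * (1 / (8 * Real.sqrt N)) - psi h) * N = h * Real.sqrt N / 8 - N * psi h := by
    have : (N : ℝ) / Real.sqrt N = Real.sqrt N := Real.div_sqrt
    rw [sub_mul]
    have e : h * (1 / (8 * Real.sqrt N)) * N = h * ((N : ℝ) / Real.sqrt N) / 8 := by
      field_simp
    rw [e, this]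
    ring
  rw [h6]
  nlinarith

/-- lower bound at every lattice point from the rate function on the axis -/
theorem point_lower : ∃ K : ℝ, 0 ≤ K ∧ ∀ n : ℕ, 2 ≤ n → ∀ x y : ℤ, (x, y) ≠ (0, 0) →
    (x + y - n) % 2 = 0 → ∀ v : ℝ, v ≤ 1 → ((|x| + |y| : ℤ) : ℝ) ≤ n * v →
    -(n * R v) - K * Real.log n ^ 2 ≤ Real.log ((TH795.EP.a n x y : ℝ) / TH795.EP.c n) := by
  obtain ⟨K, hK, hldp⟩ := ldp_words
  refine ⟨K, hK, ?_⟩
  intro n hn x y hne hpar v hv1 hxy
  have hn0 : (0 : ℝ) < n := by exact_mod_cast (by omega : 0 < n)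
  have hle : |x| + |y| ≤ n := by
    have h1 : ((|x| + |y| : ℤ) : ℝ) ≤ n := by
      refine hxy.trans ?_
      nlinarith
    exact_mod_cast h1
  have h1 := (abs_le.1 (hldp n hn x y hne hpar hle)).1
  have hD : (((x : ℝ) / n, (y : ℝ) / n) : ℝ × ℝ) ∈ Dia := by
    show |(x : ℝ) / n| + |(y : ℝ) / n| ≤ 1
    rw [abs_div, abs_div, abs_of_pos hn0, ← add_div, div_le_one hn0]
    exact_mod_cast hle
  have h2 := Rate_le_R hD
  simp only at h2
  have h3 : |(x : ℝ) / n| + |(y : ℝ) / n| ≤ v := by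
    rw [abs_div, abs_div, abs_of_pos hn0, ← add_div, div_le_iff₀ hn0]
    push_cast at hxy
    linarith
  have h4 := R_mono (by positivity) h3 hv1
  have h5 := mul_le_mul_of_nonneg_left (h2.trans h4) hn0.le
  linarith

end Pool.Agent.X144.Fi
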