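import Pool.Agent.Y981.L2.Xi
import Pool.Agent.Y981.L2X.Leg

/-!
# Fisher's relation for the planar self-avoiding walk

The exponent of the correlation length, of the rate function at zero speed and of the tail of the end
point determine each other.
-/

set_option autoImplicit false

namespace Pool.Agent.X144.Fi

open Pool.Agent.Y981.L2 Finset Filter Topology

/-- small speeds have a large rate -/
def RateUp (θ : ℝ) : Prop := ∀ ε : ℝ, 0 < ε → ∀ᶠ v in 𝓝[>] (0 : ℝ), v ^ (1 / (1 - θ) + ε) ≤ R v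

/-- small speeds have a small rate -/
def RateLow (θ : ℝ) : Prop := ∀ ε : ℝ, 0 < ε → ∀ᶠ v in 𝓝[>] (0 : ℝ), R v ≤ v ^ (1 / (1 - θ) - ε)

/-- upper bounds for the tail of the end point -/
def TailUp (θ : ℝ) : Prop := ∀ a : ℝ, θ < a → a < 1 → ∀ ε : ℝ, 0 < ε → ∀ᶠ n : ℕ in atTop,
  far n ((n : ℝ) ^ a) ≤ Real.exp (-(n : ℝ) ^ ((a - θ) / (1 - θ) - ε))

/-- lower bounds for the tail of the end point -/
def TailLow (θ : ℝ) : Prop := ∀ a : ℝ, θ < a → a < 1 → ∀ ε : ℝ, 0 < ε → ∀ᶠ n : ℕ in atTop,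
  Real.exp (-(n : ℝ) ^ ((a - θ) / (1 - θ) + ε)) ≤ far n ((n : ℝ) ^ a)

theorem tendsto_pow_zero {C q : ℝ} (hC : 0 < C) (hq : 0 < q) :
    Tendsto (fun v : ℝ => (C * v) ^ q) (𝓝[>] 0) (𝓝[>] 0) := by
  rw [tendsto_nhdsWithin_iff]
  constructor
  · have h1 : ContinuousAt (fun v : ℝ => (C * v) ^ q) 0 := by
      apply ContinuousAt.rpow_const
      · fun_prop
      · exact Or.inr hq.le
    have h2 := h1.tendsto
    simp only [mul_zero] at h2
    rw [Real.zero_rpow hq.ne'] at h2
    exact h2.mono_left nhdsWithin_le_nhds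
  · filter_upwards [self_mem_nhdsWithin] with v hv
    have : 0 < v := hv
    exact Real.rpow_pos_of_pos (by positivity) _

theorem mass_smul {e e0 : ℝ} (h0 : 0 < e0) (h : e0 ≤ e) : mass e ≤ e / e0 * mass e0 := by
  have he : 0 < e := h0.trans_le h
  apply le_of_forall_lt
  intro x hx
  rcases le_or_gt x 0 with hx0 | hx0
  · have hm := mass_pos h0
    exact lt_of_le_of_lt hx0 (by positivity)
  · obtain ⟨y, hy1, hy2⟩ := exists_between hx
    have hy0 : 0 ≤ y := (hx0.trans hy1).le
    have h1 := psi_le_of_lt he.le hy0 hy2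
    have h2 := psi_smul (h := y) (t := e0 / e) hy0 (by positivity) (by rw [div_le_one he]; exact h)
    have h3 : psi (e0 / e * y) ≤ e0 := by
      refine h2.trans ?_
      calc e0 / e * psi y ≤ e0 / e * e := mul_le_mul_of_nonneg_left h1 (by positivity)
        _ = e0 := by field_simp
    have h4 := le_mass (e := e0) (by positivity) h3
    have h5 : y ≤ e / e0 * mass e0 := by
      have h6 := mul_le_mul_of_nonneg_left h4 (show 0 ≤ e / e0 by positivity)
      have h7 : e / e0 * (e0 / e * y) = y := by field_simp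
      linarith
    linarith

theorem rateUp_of_massLow {θ : ℝ} (h1 : θ < 1) (M : MassLow θ) : RateUp θ := by
  intro ε hε
  have hs : 0 < 1 - θ := by linarith
  have hp : 0 < 1 / (1 - θ) := by positivity
  obtain ⟨q, hq⟩ : ∃ q, q = 1 / (1 - θ) + ε / 2 := ⟨_, rfl⟩
  have hq0 : 0 < q := by rw [hq]; positivity
  have hpp : 1 / (1 - θ) * (1 - θ) = 1 := by field_simp
  have hq1 : 1 / q < 1 - θ := by
    rw [div_lt_iff₀ hq0, hq]
    nlinarith
  have hη : 0 < 1 - θ - 1 / q := by linarith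
  have hmap := tendsto_pow_zero (C := 1 / 2) (by norm_num) hq0
  filter_upwards [hmap.eventually (M _ hη), ev_small (2 ^ q) (show q < q + ε / 2 by linarith),
    Ioo_mem_nhdsGT zero_lt_one] with v h2 h3 h4
  obtain ⟨hv0, hv1⟩ := h4
  obtain ⟨e, he⟩ : ∃ e, e = (1 / 2 * v) ^ q := ⟨_, rfl⟩
  rw [← he] at h2
  have he0 : 0 < e := by rw [he]; positivity
  have h5 : e ^ (1 / q) = 1 / 2 * v := by
    rw [he, ← Real.rpow_mul (by positivity), mul_one_div_cancel hq0.ne', Real.rpow_one]
  have h6 : e ^ (θ + (1 - θ - 1 / q)) * (1 / 2 * v) = e := by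
    rw [← h5, ← Real.rpow_add he0]
    have : θ + (1 - θ - 1 / q) + 1 / q = 1 := by ring
    rw [this, Real.rpow_one]
  have h7 := Pool.Agent.Y981.L2X.le_R hv0.le hv1.le he0
  have h8 := mul_le_mul_of_nonneg_left h2 hv0.le
  have h9 : v * e ^ (θ + (1 - θ - 1 / q)) = 2 * e := by
    calc v * e ^ (θ + (1 - θ - 1 / q)) = 2 * (e ^ (θ + (1 - θ - 1 / q)) * (1 / 2 * v)) := by ring
      _ = 2 * e := by rw [h6]
  have h10 : v ^ (1 / (1 - θ) + ε) ≤ e := by
    have e1 : 1 / (1 - θ) + ε = q + ε / 2 := by rw [hq]; ring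
    rw [e1, he, Real.mul_rpow (by norm_num) hv0.le]
    have e2 : (1 / 2 : ℝ) ^ q = (2 ^ q)⁻¹ := by
      rw [one_div, Real.inv_rpow (by norm_num)]
    rw [e2, inv_mul_eq_div, le_div_iff₀ (by positivity), mul_comm]
    exact h3
  linarith

theorem massLow_of_rateUp {θ : ℝ} (h0 : 0 < θ) (h1 : θ < 1) (M : RateUp θ) : MassLow θ := by
  intro η hη
  have hs : 0 < 1 - θ := by linarith
  have hp : 0 < 1 / (1 - θ) := by positivity
  have hpp : 1 / (1 - θ) * (1 - θ) = 1 := by field_simp
  have hp1 : 1 < 1 / (1 - θ) := by rw [lt_div_iff₀ hs]; linarith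
  obtain ⟨ε, hε⟩ : ∃ ε, ε = η / (1 - θ) := ⟨_, rfl⟩
  have hε0 : 0 < ε := by rw [hε]; positivity
  have hεη : ε * (1 - θ) = η := by rw [hε]; field_simp
  obtain ⟨q, hq⟩ : ∃ q, q = 1 / (1 - θ) + ε := ⟨_, rfl⟩
  have hq1 : 1 < q := by rw [hq]; linarith
  have hqc : q * (1 - θ - η) ≤ 1 := by
    rw [hq]
    have e1 : (1 / (1 - θ) + ε) * (1 - θ - η) =
        1 / (1 - θ) * (1 - θ) + ε * (1 - θ) - (1 / (1 - θ) + ε) * η := by ring
    rw [e1, hpp, hεη]
    nlinarith
  obtain ⟨u, hu0, hu⟩ := mem_nhdsGT_iff_exists_Ioo_subset.1 (M ε hε0)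
  have hu0' : 0 < u := hu0
  obtain ⟨v1, hv1⟩ : ∃ v1, v1 = min (u / 2) (1 / 2) := ⟨_, rfl⟩
  have hv10 : 0 < v1 := by rw [hv1]; exact lt_min (by linarith) (by norm_num)
  have hv1u : v1 < u := by
    have : v1 ≤ u / 2 := by rw [hv1]; exact min_le_left _ _
    linarith
  have hv11 : v1 ≤ 1 := by
    have : v1 ≤ 1 / 2 := by rw [hv1]; exact min_le_right _ _
    linarith
  have hrate : ∀ v : ℝ, 0 < v → v < u → v ^ q ≤ R v := by
    intro v hv hvu
    have := hu ⟨hv, hvu⟩
    rw [hq]
    exact this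
  obtain ⟨ρ, hρ⟩ : ∃ ρ, ρ = v1 ^ q := ⟨_, rfl⟩
  have hρ0 : 0 < ρ := by rw [hρ]; positivity
  have hθη : 0 < θ + η := by linarith
  have hsm : ∀ᶠ e in 𝓝[>] (0 : ℝ), e ^ (θ + η) ≤ ρ := by
    have h3 := (tendsto_pow_zero (C := 1) one_pos hθη)
    have h4 : ∀ᶠ y in 𝓝[>] (0 : ℝ), y ≤ ρ := by
      filter_upwards [Ioo_mem_nhdsGT hρ0] with y hy
      exact hy.2.le
    filter_upwards [h3.eventually h4] with e he
    simpa using he
  filter_upwards [hsm, Ioo_mem_nhdsGT zero_lt_one] with e h2 h3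
  obtain ⟨he0, he1⟩ := h3
  obtain ⟨h, hh⟩ : ∃ h, h = e ^ (θ + η) := ⟨_, rfl⟩
  rw [← hh] at h2 ⊢
  have hh0 : 0 < h := by rw [hh]; positivity
  apply le_mass hh0.le
  apply psi_le hh0.le
  intro v hv0 hvl
  rcases eq_or_lt_of_le hv0 with h4 | h4
  · have h5 := R_nonneg hv0 hvl
    rw [← h4] at h5 ⊢
    linarith
  · rcases lt_or_ge v v1 with h5 | h5
    · have h6 := hrate v h4 (h5.trans hv1u)
      rcases le_or_gt (h * v) (v ^ q) with h7 | h7
      · linarith
      · -- v ^ q < h * v implies h * v ≤ e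
        by_contra hcon
        push Not at hcon
        have h8 : e < h * v := by
          have : 0 ≤ R v := R_nonneg hv0 hvl
          linarith
        have h9 : e ^ (1 - θ - η) < v := by
          have e1 : e ^ (1 - θ - η) * h = e := by
            rw [hh, ← Real.rpow_add he0]
            have : 1 - θ - η + (θ + η) = 1 := by ring
            rw [this, Real.rpow_one]
          by_contra h10
          push Not at h10
          have := mul_le_mul_of_nonneg_left h10 hh0.le
          linarith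
        have h10 : v ^ (q - 1) < h := by
          have e1 : v ^ q = v ^ (q - 1) * v := by
            rw [← Real.rpow_add_one h4.ne']
            congr 1; ring
          rw [e1] at h7
          exact lt_of_mul_lt_mul_right h7 h4.le
        have h11 : e ^ ((1 - θ - η) * (q - 1)) < v ^ (q - 1) := by
          rw [Real.rpow_mul he0.le]
          exact Real.rpow_lt_rpow (by positivity) h9 (by linarith)
        have h12 : e ^ ((1 - θ - η) * (q - 1)) < e ^ (θ + η) := by
          rw [← hh]; exact h11.trans h10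
        have h13 := (Real.rpow_lt_rpow_left_iff_of_base_lt_one he0 he1).1 h12
        nlinarith
    · have h6 : ρ ≤ R v1 := by rw [hρ]; exact hrate v1 hv10 hv1u
      have h7 := R_mono hv10.le h5 hvl
      have h8 : h * v ≤ h * 1 := mul_le_mul_of_nonneg_left hvl hh0.le
      linarith

theorem rateLow_of_massUp {θ : ℝ} (h0 : 0 < θ) (h1 : θ < 1) (M : MassUp θ) : RateLow θ := by
  intro ε hε
  have hs : 0 < 1 - θ := by linarith
  have hp : 0 < 1 / (1 - θ) := by positivity
  have hp1 : 1 < 1 / (1 - θ) := by rw [lt_div_iff₀ hs]; linarith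
  obtain ⟨r, hr⟩ : ∃ r, r = max (1 / (1 - θ) - ε / 2) ((1 + 1 / (1 - θ)) / 2) := ⟨_, rfl⟩
  have hr1 : 1 < r := by rw [hr]; exact lt_of_lt_of_le (by linarith) (le_max_right _ _)
  have hrp : r < 1 / (1 - θ) := by rw [hr]; exact max_lt (by linarith) (by linarith)
  have hrε : 1 / (1 - θ) - ε / 2 ≤ r := by rw [hr]; exact le_max_left _ _
  have hr0 : 0 < r := by linarith
  have hη : 0 < 1 / r - (1 - θ) := by
    have : 1 - θ < 1 / r := by
      rw [lt_div_iff₀ hr0]
      rw [lt_div_iff₀ hs] at hrp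
      linarith
    linarith
  obtain ⟨u, hu0, hu⟩ := mem_nhdsGT_iff_exists_Ioo_subset.1 (M _ hη)
  have hu0' : 0 < u := hu0
  obtain ⟨e0, he0⟩ : ∃ e0, e0 = u / 2 := ⟨_, rfl⟩
  have he00 : 0 < e0 := by rw [he0]; linarith
  have hmass : ∀ e : ℝ, 0 < e → e ≤ e0 → mass e ≤ e ^ (1 - 1 / r) := by
    intro e he hee
    have h2 := hu ⟨he, by rw [he0] at hee; linarith⟩
    have e1 : θ - (1 / r - (1 - θ)) = 1 - 1 / r := by ring
    have h3 : mass e ≤ e ^ (θ - (1 / r - (1 - θ))) := h2
    rwa [e1] at h3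
  have hm0 := mass_pos he00
  have hv2 : 0 < e0 / mass e0 := by positivity
  filter_upwards [Ioo_mem_nhdsGT zero_lt_one, Ioo_mem_nhdsGT hv2] with v h2 h3
  obtain ⟨hv0, hv1⟩ := h2
  have hvm : v * mass e0 ≤ e0 := by
    have := h3.2.le
    rwa [le_div_iff₀ hm0] at this
  have hmain : R v ≤ v ^ r := by
    apply le_of_forall_pos_le_add
    intro d hd
    obtain ⟨e, he, h4⟩ := Y981.L2X.R_le_exists (v := v) hv0.le hd
    have hvr : 0 < v ^ r := Real.rpow_pos_of_pos hv0 _
    have h5 : v * mass e - e ≤ v ^ r := by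
      rcases le_or_gt e e0 with h6 | h6
      · have h7 := mul_le_mul_of_nonneg_left (hmass e he h6) hv0.le
        rcases le_or_gt (v ^ r) e with h8 | h8
        · have h9 : v ≤ e ^ (1 / r) := by
            calc v = (v ^ r) ^ (1 / r) := by
                  rw [← Real.rpow_mul hv0.le, mul_one_div_cancel hr0.ne', Real.rpow_one]
              _ ≤ e ^ (1 / r) := Real.rpow_le_rpow hvr.le h8 (by positivity)
          have h10 : v * e ^ (1 - 1 / r) ≤ e := by
            calc v * e ^ (1 - 1 / r) ≤ e ^ (1 / r) * e ^ (1 - 1 / r) :=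
                  mul_le_mul_of_nonneg_right h9 (Real.rpow_nonneg he.le _)
              _ = e := by
                  rw [← Real.rpow_add he]
                  have : 1 / r + (1 - 1 / r) = 1 := by ring
                  rw [this, Real.rpow_one]
          linarith
        · have h9 : e ^ (1 - 1 / r) ≤ (v ^ r) ^ (1 - 1 / r) := by
            apply Real.rpow_le_rpow he.le h8.le
            have : 1 / r ≤ 1 := by rw [div_le_one hr0]; exact hr1.le
            linarith
          have h10 : v * (v ^ r) ^ (1 - 1 / r) = v ^ r := by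
            rw [← Real.rpow_mul hv0.le]
            have e1 : r * (1 - 1 / r) = r - 1 := by field_simp
            rw [e1]
            calc v * v ^ (r - 1) = v ^ (1 : ℝ) * v ^ (r - 1) := by rw [Real.rpow_one]
              _ = v ^ r := by rw [← Real.rpow_add hv0]; congr 1; ring
          have h11 := mul_le_mul_of_nonneg_left h9 hv0.le
          linarith
      · have h7 := mul_le_mul_of_nonneg_left (mass_smul he00 h6.le) hv0.le
        have h8 : v * (e / e0 * mass e0) ≤ e := by
          calc v * (e / e0 * mass e0) = e / e0 * (v * mass e0) := by ring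
            _ ≤ e / e0 * e0 := mul_le_mul_of_nonneg_left hvm (by positivity)
            _ = e := by field_simp
        linarith
    linarith
  refine hmain.trans ?_
  exact Real.rpow_le_rpow_of_exponent_ge hv0 hv1.le (by linarith)

theorem massUp_of_rateLow {θ : ℝ} (h1 : θ < 1) (M : RateLow θ) : MassUp θ := by
  intro η hη
  have hs : 0 < 1 - θ := by linarith
  have hp : 0 < 1 / (1 - θ) := by positivity
  have hpp : 1 / (1 - θ) * (1 - θ) = 1 := by field_simp
  obtain ⟨P, hP⟩ : ∃ P, P = 1 / (1 - θ) := ⟨_, rfl⟩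
  rw [← hP] at hp hpp
  obtain ⟨ε, hε⟩ : ∃ ε, ε = P * η / 2 / (1 - θ + η) := ⟨_, rfl⟩
  have hd : 0 < 1 - θ + η := by linarith
  have hε0 : 0 < ε := by rw [hε]; positivity
  have hεm : ε * (1 - θ + η) = P * η / 2 := by rw [hε]; field_simp
  obtain ⟨q, hq⟩ : ∃ q, q = P - ε := ⟨_, rfl⟩
  have hqm : 1 < q * (1 - θ + η) := by
    have e1 : q * (1 - θ + η) = P * (1 - θ) + P * η - ε * (1 - θ + η) := by rw [hq]; ring
    rw [e1, hpp, hεm]
    have : 0 < P * η := by positivity
    linarith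
  have hq0 : 0 < q := by
    by_contra h
    push Not at h
    nlinarith
  have hqq : θ - η < 1 - 1 / q := by
    have : 1 / q < 1 - θ + η := by
      rw [div_lt_iff₀ hq0]; linarith
    linarith
  have hiq : 0 < 1 / q := by positivity
  have hmap := tendsto_pow_zero (C := 1) one_pos hiq
  filter_upwards [hmap.eventually (M ε hε0), ev_small 2 hqq, Ioo_mem_nhdsGT zero_lt_one]
    with e h2 h3 h4
  obtain ⟨he0, he1⟩ := h4
  rw [one_mul, ← hP, ← hq] at h2
  obtain ⟨v, hv⟩ : ∃ v, v = e ^ (1 / q) := ⟨_, rfl⟩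
  rw [← hv] at h2
  have hv0 : 0 < v := by rw [hv]; positivity
  have hv1 : v ≤ 1 := by rw [hv]; exact Real.rpow_le_one he0.le he1.le hiq.le
  have hvq : v ^ q = e := by
    rw [hv, ← Real.rpow_mul he0.le, one_div_mul_cancel hq0.ne', Real.rpow_one]
  rw [hvq] at h2
  refine le_trans ?_ h3
  apply le_of_forall_lt
  intro x hx
  obtain ⟨y, hy1, hy2⟩ := exists_between hx
  have hepow : 0 < e ^ (1 - 1 / q) := Real.rpow_pos_of_pos he0 _
  rcases le_or_gt y 0 with hy0 | hy0
  · linarith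
  · have h5 := psi_le_of_lt he0.le hy0.le hy2
    have h6 := young hv0.le hv1 y
    have h7 : y * v ≤ 2 * e := by linarith
    have h8 : e ^ (1 - 1 / q) * v = e := by
      rw [hv, ← Real.rpow_add he0]
      have : 1 - 1 / q + 1 / q = 1 := by ring
      rw [this, Real.rpow_one]
    have h9 : y * v ≤ 2 * e ^ (1 - 1 / q) * v := by rw [mul_assoc, h8]; exact h7
    have h10 := le_of_mul_le_mul_right h9 hv0
    linarith

end Pool.Agent.X144.Fi
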