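import Pool.Agent.X144.Fi.Speed

/-!
# Fisher's relation for a general size

`T n r` is the probability that the size of the configuration with `n` steps is at least `r`.
-/

set_option autoImplicit false

namespace Pool.Agent.X144.Fi

open Pool.Agent.TH795.EP Pool.Agent.TH795.EP2 Pool.Agent.TH795.SE2 Pool.Agent.TH262.SawL Pool.Agent.Y981.L2 Pool.Agent.Y981.L2X H981 Finset Filter Topology

/-- the tail `T` of a size is given by the rate function up to constants -/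
structure Cmp (T : ℕ → ℝ → ℝ) (C K : ℝ) : Prop where
  hC : 1 ≤ C
  hK : 0 ≤ K
  up : ∀ n : ℕ, 2 ≤ n → ∀ r : ℝ, 1 ≤ r → C * r ≤ n →
    T n r ≤ Real.exp (-(n * R (r / (C * n))) + K * Real.log n ^ 2)
  low : ∀ n : ℕ, 2 ≤ n → ∀ r : ℝ, 1 ≤ r → C * r ≤ n →
    Real.exp (-(C * (n * R (C * r / n)) + K * Real.log n ^ 2)) ≤ T n r

theorem pow_div_eq {n : ℕ} (hn : 1 ≤ n) (a C : ℝ) :
    (n : ℝ) ^ a / (C * n) = 1 / C * (n : ℝ) ^ (a - 1) := by
  have hn0 : (0 : ℝ) < n := by exact_mod_cast hn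
  rw [Real.rpow_sub_one hn0.ne']
  rcases eq_or_ne C 0 with h | h
  · rw [h]; simp
  · field_simp

theorem mul_pow_div_eq {n : ℕ} (hn : 1 ≤ n) (a C : ℝ) :
    C * (n : ℝ) ^ a / n = C * (n : ℝ) ^ (a - 1) := by
  have hn0 : (0 : ℝ) < n := by exact_mod_cast hn
  rw [Real.rpow_sub_one hn0.ne']
  ring

variable {T : ℕ → ℝ → ℝ} {C K : ℝ}

theorem ev_range (_h : Cmp T C K) {a : ℝ} (ha0 : 0 < a) (ha1 : a < 1) :
    ∀ᶠ n : ℕ in atTop, 2 ≤ n ∧ 1 ≤ (n : ℝ) ^ a ∧ C * (n : ℝ) ^ a ≤ n := by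
  filter_upwards [ev_pow 1 ha0, ev_pow C ha1, eventually_ge_atTop 2] with n h1 h2 h3
  rw [Real.rpow_zero, mul_one] at h1
  rw [Real.rpow_one] at h2
  exact ⟨h3, h1, h2⟩

/-- upper bounds for the tail from the rate function -/
theorem gen_up (h : Cmp T C K) {p a : ℝ} (ha0 : 0 < a) (ha1 : a < 1) (_hp : 0 < p)
    (hb : 0 < 1 - (1 - a) * p)
    (M : ∀ ε : ℝ, 0 < ε → ∀ᶠ v in 𝓝[>] (0 : ℝ), v ^ (p + ε) ≤ R v) {ε : ℝ} (hε : 0 < ε) :
    ∀ᶠ n : ℕ in atTop, T n ((n : ℝ) ^ a) ≤ Real.exp (-(n : ℝ) ^ (1 - (1 - a) * p - ε)) := by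
  have hC := h.hC
  obtain ⟨b, hbb⟩ : ∃ b, b = 1 - (1 - a) * p := ⟨_, rfl⟩
  rw [← hbb] at hb ⊢
  obtain ⟨δ, hδ⟩ : ∃ δ, δ = min (ε / 2) (b / 2) := ⟨_, rfl⟩
  have hδ0 : 0 < δ := by rw [hδ]; exact lt_min (by linarith) (by linarith)
  have hδε : δ ≤ ε / 2 := by rw [hδ]; exact min_le_left _ _
  have hδb : δ ≤ b / 2 := by rw [hδ]; exact min_le_right _ _
  obtain ⟨b', hb'⟩ : ∃ b', b' = 1 - (1 - a) * (p + δ) := ⟨_, rfl⟩
  have hbb' : b' = b - (1 - a) * δ := by rw [hb', hbb]; ring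
  have haδ : (1 - a) * δ ≤ δ := by nlinarith
  have hb'0 : 0 < b' := by rw [hbb']; linarith
  have hb'ε : b - ε < b' := by rw [hbb']; linarith
  have hc0 : (0 : ℝ) < (1 / C) ^ (p + δ) := by positivity
  filter_upwards [ev_range h ha0 ha1,
    (tendsto_cast_pow (a := a) (C := 1 / C) ha1 (by positivity)).eventually (M δ hδ0),
    absorb_up (K := K) (D := 0) hb'0 hb'ε hc0] with n h1 h2 h3
  obtain ⟨hn, h4, h5⟩ := h1
  have hn0 : (0 : ℝ) < n := by exact_mod_cast (by omega : 0 < n)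
  refine (h.up n hn _ h4 h5).trans (Real.exp_le_exp.2 ?_)
  rw [pow_div_eq (by omega)]
  have h6 : (n : ℝ) * (1 / C * (n : ℝ) ^ (a - 1)) ^ (p + δ) = (1 / C) ^ (p + δ) * (n : ℝ) ^ b' := by
    rw [Real.mul_rpow (by positivity) (Real.rpow_nonneg hn0.le _), ← Real.rpow_mul hn0.le]
    have e1 : (n : ℝ) ^ b' = n * (n : ℝ) ^ ((a - 1) * (p + δ)) := by
      have : b' = 1 + (a - 1) * (p + δ) := by rw [hb']; ring
      rw [this, Real.rpow_add hn0, Real.rpow_one]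
    rw [e1]
    ring
  have h7 := mul_le_mul_of_nonneg_left h2 hn0.le
  rw [h6] at h7
  linarith

/-- lower bounds for the tail from the rate function -/
theorem gen_low (h : Cmp T C K) {p a : ℝ} (ha0 : 0 < a) (ha1 : a < 1) (hp : 0 < p)
    (M : ∀ ε : ℝ, 0 < ε → ∀ᶠ v in 𝓝[>] (0 : ℝ), R v ≤ v ^ (p - ε)) {ε : ℝ} (hε : 0 < ε)
    (hb : 0 < 1 - (1 - a) * p + ε) :
    ∀ᶠ n : ℕ in atTop, Real.exp (-(n : ℝ) ^ (1 - (1 - a) * p + ε)) ≤ T n ((n : ℝ) ^ a) := by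
  have hC := h.hC
  obtain ⟨b, hbb⟩ : ∃ b, b = 1 - (1 - a) * p := ⟨_, rfl⟩
  rw [← hbb] at hb ⊢
  obtain ⟨δ, hδ⟩ : ∃ δ, δ = min (ε / 2) (p / 2) := ⟨_, rfl⟩
  have hδ0 : 0 < δ := by rw [hδ]; exact lt_min (by linarith) (by linarith)
  have hδε : δ ≤ ε / 2 := by rw [hδ]; exact min_le_left _ _
  have hδp : δ ≤ p / 2 := by rw [hδ]; exact min_le_right _ _
  obtain ⟨b', hb'⟩ : ∃ b', b' = 1 - (1 - a) * (p - δ) := ⟨_, rfl⟩
  have hbb' : b' = b + (1 - a) * δ := by rw [hb', hbb]; ring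
  have haδ : (1 - a) * δ ≤ δ := by nlinarith
  have hb'ε : b' < b + ε := by rw [hbb']; linarith
  have hq : 0 < p - δ := by linarith
  filter_upwards [ev_range h ha0 ha1,
    (tendsto_cast_pow (a := a) (C := C) ha1 (by positivity)).eventually (M δ hδ0),
    ev_pow (2 * (C * C ^ (p - δ))) hb'ε, ev_log (2 * K) 0 hb] with n h1 h2 h3 h4
  obtain ⟨hn, h5, h6⟩ := h1
  have hn0 : (0 : ℝ) < n := by exact_mod_cast (by omega : 0 < n)
  refine le_trans (Real.exp_le_exp.2 ?_) (h.low n hn _ h5 h6)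
  rw [mul_pow_div_eq (by omega)]
  have h7 : (n : ℝ) * (C * (n : ℝ) ^ (a - 1)) ^ (p - δ) = C ^ (p - δ) * (n : ℝ) ^ b' := by
    rw [Real.mul_rpow (by positivity) (Real.rpow_nonneg hn0.le _), ← Real.rpow_mul hn0.le]
    have e1 : (n : ℝ) ^ b' = n * (n : ℝ) ^ ((a - 1) * (p - δ)) := by
      have : b' = 1 + (a - 1) * (p - δ) := by rw [hb']; ring
      rw [this, Real.rpow_add hn0, Real.rpow_one]
    rw [e1]
    ring
  have h8 := mul_le_mul_of_nonneg_left h2 hn0.le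
  rw [h7] at h8
  have h9 := mul_le_mul_of_nonneg_left h8 (show (0 : ℝ) ≤ C by linarith)
  have h10 : C * (C ^ (p - δ) * (n : ℝ) ^ b') = (2 * (C * C ^ (p - δ)) * (n : ℝ) ^ b') / 2 := by ring
  rw [h10] at h9
  linarith

/-- the length which belongs to a speed -/
theorem tendsto_len_of {C a : ℝ} (hC : 0 < C) (ha1 : a < 1) :
    Tendsto (fun v : ℝ => (C / v) ^ (1 / (1 - a))) (𝓝[>] 0) atTop := by
  have h1 : Tendsto (fun v : ℝ => C / v) (𝓝[>] 0) atTop := by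
    have : Tendsto (fun v : ℝ => v⁻¹) (𝓝[>] 0) atTop := tendsto_inv_nhdsGT_zero
    simpa [div_eq_mul_inv] using this.const_mul_atTop hC
  exact (tendsto_rpow_atTop (by have : 0 < 1 - a := by linarith
                                positivity)).comp h1

/-- lower bounds of the rate function from upper bounds of the tail at one scale -/
theorem gen_rateUp (h : Cmp T C K) {a β : ℝ} (ha0 : 0 < a) (ha1 : a < 1) (hβ : 0 < β) (hβ1 : β < 1)
    (A : ∀ ε : ℝ, 0 < ε → ∀ᶠ n : ℕ in atTop, T n ((n : ℝ) ^ a) ≤ Real.exp (-(n : ℝ) ^ (β - ε)))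
    {ε : ℝ} (hε : 0 < ε) : ∀ᶠ v in 𝓝[>] (0 : ℝ), v ^ ((1 - β) / (1 - a) + ε) ≤ R v := by
  have hC := h.hC
  have hC0 : 0 < C := by linarith
  have hs : 0 < 1 - a := by linarith
  obtain ⟨δ, hδ⟩ : ∃ δ, δ = min (ε * (1 - a) / 2) (β / 2) := ⟨_, rfl⟩
  have hδ0 : 0 < δ := by rw [hδ]; exact lt_min (by positivity) (by linarith)
  have hδε : δ ≤ ε * (1 - a) / 2 := by rw [hδ]; exact min_le_left _ _
  have hδb : δ ≤ β / 2 := by rw [hδ]; exact min_le_right _ _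
  have hev : ∀ᶠ n : ℕ in atTop, 2 ≤ n ∧ C * (n : ℝ) ^ (a - 1) ≤ 1 ∧
      (n : ℝ) ^ (β - δ - 1) / (2 * C) ≤ R (C * (n : ℝ) ^ (a - 1)) := by
    filter_upwards [ev_range h ha0 ha1, A δ hδ0, ev_log (2 * K) 0 (show 0 < β - δ by linarith)]
      with n h1 h2 h3
    obtain ⟨hn, h4, h5⟩ := h1
    have hn0 : (0 : ℝ) < n := by exact_mod_cast (by omega : 0 < n)
    have h6 := (h.low n hn _ h4 h5).trans h2
    rw [Real.exp_le_exp, mul_pow_div_eq (by omega)] at h6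
    refine ⟨hn, ?_, ?_⟩
    · rw [← mul_pow_div_eq (by omega), div_le_one hn0]
      exact h5
    · rw [div_le_iff₀ (by positivity), Real.rpow_sub_one hn0.ne', div_le_iff₀ hn0]
      nlinarith
  have hN := tendsto_nat_ceil_atTop.comp (tendsto_len_of (C := C) (a := a) hC0 ha1)
  obtain ⟨s, hs'⟩ : ∃ s, s = 1 / (1 - a) := ⟨_, rfl⟩
  have hs0 : 0 < s := by rw [hs']; positivity
  obtain ⟨γ, hγ⟩ : ∃ γ, γ = 1 - β + δ := ⟨_, rfl⟩
  have hγ0 : 0 < γ := by rw [hγ]; linarith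
  have hsγ : s * γ < (1 - β) / (1 - a) + ε := by
    have e : s * γ = (1 - β) / (1 - a) + δ / (1 - a) := by rw [hs', hγ]; field_simp
    have : δ / (1 - a) ≤ ε / 2 := by
      rw [div_le_iff₀ hs]; linarith
    rw [e]
    linarith
  filter_upwards [hN.eventually hev, (tendsto_len_of (C := C) (a := a) hC0 ha1).eventually_ge_atTop 1,
    ev_small (2 * C * (2 * C ^ s) ^ γ) hsγ, Ioo_mem_nhdsGT zero_lt_one] with v h1 h2 h3 h4
  obtain ⟨hv0, hv1⟩ := h4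
  simp only [Function.comp] at h1
  rw [← hs'] at h1 h2
  obtain ⟨x, hx⟩ : ∃ x, x = (C / v) ^ s := ⟨_, rfl⟩
  rw [← hx] at h1 h2
  obtain ⟨n, hn⟩ : ∃ n, n = ⌈x⌉₊ := ⟨_, rfl⟩
  rw [← hn] at h1
  obtain ⟨hn2, h5, h6⟩ := h1
  have hn0 : (0 : ℝ) < n := by exact_mod_cast (by omega : 0 < n)
  have hxn : x ≤ n := by rw [hn]; exact Nat.le_ceil _
  have hnx : (n : ℝ) ≤ 2 * x := by
    have := Nat.ceil_lt_add_one (show 0 ≤ x by linarith)
    rw [← hn] at this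
    linarith
  have h7 : C * (n : ℝ) ^ (a - 1) ≤ v := by
    have h8 : C / v ≤ (n : ℝ) ^ (1 - a) := by
      calc C / v = x ^ (1 - a) := by
            rw [hx, ← Real.rpow_mul (by positivity), hs', one_div_mul_cancel hs.ne', Real.rpow_one]
        _ ≤ _ := Real.rpow_le_rpow (by linarith) hxn hs.le
    have h9 : (n : ℝ) ^ (a - 1) = ((n : ℝ) ^ (1 - a))⁻¹ := by
      rw [← Real.rpow_neg hn0.le]; congr 1; ring
    rw [h9, ← div_eq_mul_inv, div_le_iff₀ (by positivity)]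
    rw [div_le_iff₀ hv0] at h8
    linarith
  have h8 := R_mono (by positivity) h7 hv1.le
  refine le_trans ?_ (h6.trans h8)
  rw [le_div_iff₀ (by positivity)]
  have h9 : (n : ℝ) ^ (β - δ - 1) = ((n : ℝ) ^ γ)⁻¹ := by
    rw [← Real.rpow_neg hn0.le]; congr 1; rw [hγ]; ring
  have h10 : (n : ℝ) ^ γ ≤ (2 * C ^ s) ^ γ * (v ^ (s * γ))⁻¹ := by
    calc (n : ℝ) ^ γ ≤ (2 * x) ^ γ := Real.rpow_le_rpow hn0.le hnx hγ0.le
      _ = _ := by
        rw [hx, Real.div_rpow hC0.le hv0.le, Real.rpow_mul hv0.le]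
        have e : 2 * (C ^ s / v ^ s) = 2 * C ^ s * (v ^ s)⁻¹ := by ring
        rw [e, Real.mul_rpow (by positivity) (by positivity), Real.inv_rpow (by positivity)]
  have h11 : 0 < (n : ℝ) ^ γ := by positivity
  have h12 : 0 < v ^ (s * γ) := by positivity
  rw [h9]
  have h13 : v ^ ((1 - β) / (1 - a) + ε) * (2 * C) * (n : ℝ) ^ γ ≤ 1 := by
    calc v ^ ((1 - β) / (1 - a) + ε) * (2 * C) * (n : ℝ) ^ γ
        ≤ v ^ ((1 - β) / (1 - a) + ε) * (2 * C) * ((2 * C ^ s) ^ γ * (v ^ (s * γ))⁻¹) := by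
          apply mul_le_mul_of_nonneg_left h10 (by positivity)
      _ = 2 * C * (2 * C ^ s) ^ γ * v ^ ((1 - β) / (1 - a) + ε) * (v ^ (s * γ))⁻¹ := by ring
      _ ≤ v ^ (s * γ) * (v ^ (s * γ))⁻¹ := mul_le_mul_of_nonneg_right h3 (by positivity)
      _ = 1 := mul_inv_cancel₀ h12.ne'
  calc v ^ ((1 - β) / (1 - a) + ε) * (2 * C)
      = v ^ ((1 - β) / (1 - a) + ε) * (2 * C) * (n : ℝ) ^ γ * ((n : ℝ) ^ γ)⁻¹ := by
        field_simp
    _ ≤ 1 * ((n : ℝ) ^ γ)⁻¹ := mul_le_mul_of_nonneg_right h13 (by positivity)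
    _ = _ := one_mul _

/-- upper bounds of the rate function from lower bounds of the tail at one scale -/
theorem gen_rateLow (h : Cmp T C K) {a β : ℝ} (ha0 : 0 < a) (ha1 : a < 1) (hβ : 0 ≤ β) (hβ1 : β < 1)
    (A : ∀ ε : ℝ, 0 < ε → ∀ᶠ n : ℕ in atTop, Real.exp (-(n : ℝ) ^ (β + ε)) ≤ T n ((n : ℝ) ^ a))
    {ε : ℝ} (hε : 0 < ε) : ∀ᶠ v in 𝓝[>] (0 : ℝ), R v ≤ v ^ ((1 - β) / (1 - a) - ε) := by
  have hC := h.hC
  have hC0 : 0 < C := by linarith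
  have hs : 0 < 1 - a := by linarith
  obtain ⟨δ, hδ⟩ : ∃ δ, δ = min (ε * (1 - a) / 2) ((1 - β) / 2) := ⟨_, rfl⟩
  have hδ0 : 0 < δ := by rw [hδ]; exact lt_min (by positivity) (by linarith)
  have hδε : δ ≤ ε * (1 - a) / 2 := by rw [hδ]; exact min_le_left _ _
  have hδb : δ ≤ (1 - β) / 2 := by rw [hδ]; exact min_le_right _ _
  have hev : ∀ᶠ n : ℕ in atTop, 2 ≤ n ∧ 1 / C * (n : ℝ) ^ (a - 1) ≤ 1 ∧
      R (1 / C * (n : ℝ) ^ (a - 1)) ≤ 2 * (n : ℝ) ^ (β + δ - 1) := by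
    filter_upwards [ev_range h ha0 ha1, A δ hδ0, ev_log K 0 (show 0 < β + δ by linarith)]
      with n h1 h2 h3
    obtain ⟨hn, h4, h5⟩ := h1
    have hn0 : (0 : ℝ) < n := by exact_mod_cast (by omega : 0 < n)
    have h6 := h2.trans (h.up n hn _ h4 h5)
    rw [Real.exp_le_exp, pow_div_eq (by omega)] at h6
    refine ⟨hn, ?_, ?_⟩
    · rw [← pow_div_eq (by omega), div_le_one (by positivity)]
      have : (n : ℝ) ^ a ≤ C * (n : ℝ) ^ a := by nlinarith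
      nlinarith
    · rw [Real.rpow_sub_one hn0.ne' (β + δ), ← mul_div_assoc, le_div_iff₀ hn0]
      nlinarith
  have hN := tendsto_nat_floor_atTop.comp
    (tendsto_len_of (C := 1 / C) (a := a) (by positivity) ha1)
  obtain ⟨s, hs'⟩ : ∃ s, s = 1 / (1 - a) := ⟨_, rfl⟩
  have hs0 : 0 < s := by rw [hs']; positivity
  obtain ⟨γ, hγ⟩ : ∃ γ, γ = 1 - β - δ := ⟨_, rfl⟩
  have hγ0 : 0 < γ := by rw [hγ]; linarith
  have hsγ : (1 - β) / (1 - a) - ε < s * γ := by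
    have e : s * γ = (1 - β) / (1 - a) - δ / (1 - a) := by rw [hs', hγ]; field_simp
    have : δ / (1 - a) ≤ ε / 2 := by
      rw [div_le_iff₀ hs]; linarith
    rw [e]
    linarith
  filter_upwards [hN.eventually hev,
    (tendsto_len_of (C := 1 / C) (a := a) (by positivity) ha1).eventually_ge_atTop 2,
    ev_small (2 * ((1 / 2) * (1 / C) ^ s) ^ (-γ)) hsγ, Ioo_mem_nhdsGT zero_lt_one] with v h1 h2 h3 h4
  obtain ⟨hv0, hv1⟩ := h4
  simp only [Function.comp] at h1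
  rw [← hs'] at h1 h2
  obtain ⟨x, hx⟩ : ∃ x, x = (1 / C / v) ^ s := ⟨_, rfl⟩
  rw [← hx] at h1 h2
  obtain ⟨n, hn⟩ : ∃ n, n = ⌊x⌋₊ := ⟨_, rfl⟩
  rw [← hn] at h1
  obtain ⟨hn2, h5, h6⟩ := h1
  have hn0 : (0 : ℝ) < n := by exact_mod_cast (by omega : 0 < n)
  have hxn : (n : ℝ) ≤ x := by rw [hn]; exact Nat.floor_le (by linarith)
  have hnx : 1 / 2 * x ≤ n := by
    have := Nat.lt_floor_add_one x
    rw [← hn] at this
    linarith
  have h7 : v ≤ 1 / C * (n : ℝ) ^ (a - 1) := by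
    have h8 : (n : ℝ) ^ (1 - a) ≤ 1 / C / v := by
      calc (n : ℝ) ^ (1 - a) ≤ x ^ (1 - a) := Real.rpow_le_rpow hn0.le hxn hs.le
        _ = 1 / C / v := by
            rw [hx, ← Real.rpow_mul (by positivity), hs', one_div_mul_cancel hs.ne', Real.rpow_one]
    have h9 : (n : ℝ) ^ (a - 1) = ((n : ℝ) ^ (1 - a))⁻¹ := by
      rw [← Real.rpow_neg hn0.le]; congr 1; ring
    rw [h9, ← div_eq_mul_inv, le_div_iff₀ (by positivity)]
    rw [le_div_iff₀ hv0] at h8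
    linarith
  have h8 := R_mono hv0.le h7 h5
  refine (h8.trans h6).trans ?_
  have h9 : (n : ℝ) ^ (β + δ - 1) = (n : ℝ) ^ (-γ) := by congr 1; rw [hγ]; ring
  rw [h9]
  have h10 : (n : ℝ) ^ (-γ) ≤ ((1 / 2) * (1 / C) ^ s) ^ (-γ) * v ^ (s * γ) := by
    calc (n : ℝ) ^ (-γ) ≤ (1 / 2 * x) ^ (-γ) :=
          Real.rpow_le_rpow_of_nonpos (by linarith) hnx (by linarith)
      _ = _ := by
        rw [hx, Real.div_rpow (by positivity) hv0.le, Real.rpow_mul hv0.le]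
        have e : 1 / 2 * ((1 / C) ^ s / v ^ s) = 1 / 2 * (1 / C) ^ s * (v ^ s)⁻¹ := by ring
        rw [e, Real.mul_rpow (by positivity) (by positivity), Real.inv_rpow (by positivity),
          Real.rpow_neg (by positivity : 0 ≤ v ^ s), inv_inv]
  calc 2 * (n : ℝ) ^ (-γ) ≤ 2 * (((1 / 2) * (1 / C) ^ s) ^ (-γ) * v ^ (s * γ)) :=
        mul_le_mul_of_nonneg_left h10 (by norm_num)
    _ = 2 * ((1 / 2) * (1 / C) ^ s) ^ (-γ) * v ^ (s * γ) := by ring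
    _ ≤ _ := h3

end Pool.Agent.X144.Fi
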