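import Pool.Agent.X144.Fi.Gen
import Pool.Agent.Y981.L2.Area5
import Pool.Agent.Y981.L2.Diam

/-!
# The end point, the diameter, the width and the area
-/

set_option autoImplicit false

namespace Pool.Agent.X144.Fi

open Pool.Agent.TH795.EP Pool.Agent.TH795.EP2 Pool.Agent.TH795.SE2 Pool.Agent.TH262.SawL Pool.Agent.Y981.L2 Pool.Agent.Y981.L2X H981 Finset Filter Topology

theorem cmp_far : ∃ C K : ℝ, Cmp far C K := by
  obtain ⟨K1, hK1, h1⟩ := far_R
  obtain ⟨K2, hK2, h2⟩ := le_far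
  refine ⟨3, K1 + K2, ⟨by norm_num, by positivity, ?_, ?_⟩⟩
  · intro n hn r hr hrn
    have hn0 : (0 : ℝ) < n := by exact_mod_cast (by omega : 0 < n)
    have hL : 0 ≤ K2 * Real.log (n : ℝ) ^ 2 := by positivity
    have h3 := h1 n hn (r / n) (by positivity)
    rw [div_mul_cancel₀ _ hn0.ne'] at h3
    refine h3.trans (Real.exp_le_exp.2 ?_)
    have h4 : r / (3 * n) ≤ r / n / 2 := by
      rw [div_div]
      apply div_le_div_of_nonneg_left (by linarith) (by positivity)
      linarith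
    have h5 := R_mono (by positivity) h4 (by
      rw [div_div, div_le_one (by positivity)]
      linarith)
    have h6 := mul_le_mul_of_nonneg_left h5 hn0.le
    linarith
  · intro n hn r hr hrn
    have hn0 : (0 : ℝ) < n := by exact_mod_cast (by omega : 0 < n)
    have hL : 0 ≤ K1 * Real.log (n : ℝ) ^ 2 := by positivity
    obtain ⟨k, hk1, hk2, hk3⟩ := adjust n (x := r + 2) (by linarith)
    have hk4 : (k : ℝ) ≤ n := by linarith
    have hk5 : k ≤ n := by exact_mod_cast hk4
    have hk6 : (0 : ℝ) < k := by linarith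
    have hk7 : 0 < k := by exact_mod_cast hk6
    have h3 := h2 n k hn (by omega) hk5 hk3 r (by linarith)
    refine le_trans (Real.exp_le_exp.2 ?_) h3
    have h4 : (k : ℝ) / n ≤ 3 * r / n := by
      apply div_le_div_of_nonneg_right _ hn0.le
      linarith
    have h41 : 3 * r / n ≤ 1 := by rw [div_le_one hn0]; exact hrn
    have h5 := R_mono (by positivity) h4 h41
    have h6 := mul_le_mul_of_nonneg_left h5 hn0.le
    have h7 := mul_nonneg hn0.le (R_nonneg (v := 3 * r / n) (by positivity) h41)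
    linarith

theorem cmp_dfar : ∃ C K : ℝ, Cmp dfar C K := by
  obtain ⟨C, K, h⟩ := cmp_far
  obtain ⟨K1, hK1, h1⟩ := dfar_le
  refine ⟨C, K + K1, ⟨h.hC, by have := h.hK; positivity, ?_, ?_⟩⟩
  · intro n hn r hr hrn
    have h2 := h.up n hn r hr hrn
    have h3 := h1 n hn r
    have h4 := mul_le_mul_of_nonneg_left h2 (q_pos n K1).le
    refine (h3.trans h4).trans (le_of_eq ?_)
    unfold q
    rw [← Real.exp_add]
    congr 1
    ring
  · intro n hn r hr hrn
    have h2 := h.low n hn r hr hrn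
    refine le_trans (Real.exp_le_exp.2 ?_) (h2.trans (far_le_dfar n r))
    have hL : 0 ≤ K1 * Real.log (n : ℝ) ^ 2 := by positivity
    linarith

theorem cmp_pw : ∃ C K : ℝ, Cmp pw C K := by
  obtain ⟨K, hK, hldp⟩ := pw_ldp
  refine ⟨3, K, ⟨by norm_num, hK, ?_, ?_⟩⟩
  · intro n hn r hr hrn
    have hn0 : (0 : ℝ) < n := by exact_mod_cast (by omega : 0 < n)
    obtain ⟨k, hk⟩ : ∃ k, k = ⌈r⌉₊ := ⟨_, rfl⟩
    have hk1 : r ≤ k := by rw [hk]; exact Nat.le_ceil _
    have hk2 : (k : ℝ) < r + 1 := by rw [hk]; exact Nat.ceil_lt_add_one (by linarith)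
    have hk3 : (k : ℝ) < n := by linarith
    have hk4 : k < n := by exact_mod_cast hk3
    have hk5 : (0 : ℝ) < k := by linarith
    have hk6 : 0 < k := by exact_mod_cast hk5
    obtain ⟨-, h1⟩ := hldp n hn k hk6 hk4
    rw [pw_ceil, ← hk]
    refine h1.trans (Real.exp_le_exp.2 ?_)
    have h4 : r / (3 * n) ≤ (k : ℝ) / n := by
      rw [div_le_div_iff₀ (by positivity) hn0]
      nlinarith
    have h41 : (k : ℝ) / n ≤ 1 := by rw [div_le_one hn0]; exact hk3.le
    have h5 := R_mono (by positivity) h4 h41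
    have h6 := mul_le_mul_of_nonneg_left h5 hn0.le
    have h7 := mul_nonneg hn0.le (R_nonneg (v := (k : ℝ) / n) (by positivity) h41)
    linarith
  · intro n hn r hr hrn
    have hn0 : (0 : ℝ) < n := by exact_mod_cast (by omega : 0 < n)
    obtain ⟨k, hk⟩ : ∃ k, k = ⌈r⌉₊ := ⟨_, rfl⟩
    have hk1 : r ≤ k := by rw [hk]; exact Nat.le_ceil _
    have hk2 : (k : ℝ) < r + 1 := by rw [hk]; exact Nat.ceil_lt_add_one (by linarith)
    have hk3 : (k : ℝ) < n := by linarith
    have hk4 : k < n := by exact_mod_cast hk3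
    have hk5 : (0 : ℝ) < k := by linarith
    have hk6 : 0 < k := by exact_mod_cast hk5
    obtain ⟨h1, -⟩ := hldp n hn k hk6 hk4
    rw [pw_ceil, ← hk]
    refine le_trans (Real.exp_le_exp.2 ?_) h1
    have h4 : (k : ℝ) / n ≤ 3 * r / n := by
      apply div_le_div_of_nonneg_right _ hn0.le
      linarith
    have h41 : 3 * r / n ≤ 1 := by rw [div_le_one hn0]; exact hrn
    have h5 := R_mono (by positivity) h4 h41
    have h6 := mul_le_mul_of_nonneg_left h5 hn0.le
    have h7 := mul_nonneg hn0.le (R_nonneg (v := 3 * r / n) (by positivity) h41)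
    linarith

theorem cmp_par : ∃ C K : ℝ, Cmp (fun n r => par n (r ^ 2)) C K := by
  obtain ⟨C, K, h⟩ := cmp_pw
  obtain ⟨K1, hK1, hlow⟩ := area_lower
  have hC := h.hC
  have hK := h.hK
  refine ⟨C + 5, K + 3 + K1, ⟨by linarith, by positivity, ?_, ?_⟩⟩
  · intro n hn r hr hrn
    have hn0 : (0 : ℝ) < n := by exact_mod_cast (by omega : 0 < n)
    have hn2 : (2 : ℝ) ≤ n := by exact_mod_cast hn
    have hlog2 : Real.log 2 ≤ Real.log n := Real.log_le_log (by norm_num) hn2
    have hl2 := Real.log_two_gt_d9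
    have hl2' := Real.log_two_lt_d9
    have hCr : C * r ≤ n := by nlinarith
    have h1 := par_le (n := n) (by omega) (show 0 ≤ r by linarith)
    have h2 := h.up n hn r hr hCr
    have h3 : (2 : ℝ) ≤ Real.exp (3 * Real.log n ^ 2) := by
      rw [← Real.log_le_iff_le_exp (by norm_num)]
      nlinarith
    have hL : 0 ≤ K1 * Real.log (n : ℝ) ^ 2 := by positivity
    calc par n (r ^ 2) ≤ 2 * pw n r := h1
      _ ≤ 2 * Real.exp (-(n * R (r / (C * n))) + K * Real.log n ^ 2) := by linarith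
      _ ≤ Real.exp (3 * Real.log n ^ 2) *
          Real.exp (-(n * R (r / (C * n))) + K * Real.log n ^ 2) :=
          mul_le_mul_of_nonneg_right h3 (Real.exp_pos _).le
      _ ≤ _ := by
          rw [← Real.exp_add]
          apply Real.exp_le_exp.2
          have h4 : r / ((C + 5) * n) ≤ r / (C * n) := by
            apply div_le_div_of_nonneg_left (by linarith) (by positivity)
            nlinarith
          have h5 := R_mono (by positivity) h4 (by
            rw [div_le_one (by positivity)]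
            nlinarith)
          have h6 := mul_le_mul_of_nonneg_left h5 hn0.le
          linarith
  · intro n hn r hr hrn
    have hn0 : (0 : ℝ) < n := by exact_mod_cast (by omega : 0 < n)
    obtain ⟨k, hk⟩ : ∃ k, k = ⌈r⌉₊ := ⟨_, rfl⟩
    have hk1 : r ≤ k := by rw [hk]; exact Nat.le_ceil _
    have hk2 : (k : ℝ) < r + 1 := by rw [hk]; exact Nat.ceil_lt_add_one (by linarith)
    have hk3 : 2 * (k : ℝ) < n := by nlinarith
    have hk4 : 2 * k < n := by exact_mod_cast hk3
    have hk5 : (0 : ℝ) < k := by linarith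
    have hk6 : 0 < k := by exact_mod_cast hk5
    have h1 := hlow n hn k hk6 hk4
    have h2 : par n ((k : ℝ) ^ 2) ≤ par n (r ^ 2) :=
      par_anti (by omega) (pow_le_pow_left₀ (by linarith) hk1 2)
    refine le_trans (Real.exp_le_exp.2 ?_) (h1.trans h2)
    have h4 : 2 * (k : ℝ) / n ≤ (C + 5) * r / n := by
      apply div_le_div_of_nonneg_right _ hn0.le
      nlinarith
    have h41 : (C + 5) * r / n ≤ 1 := by rw [div_le_one hn0]; exact hrn
    have h5 := R_mono (by positivity) h4 h41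
    have h6 := mul_le_mul_of_nonneg_left h5 hn0.le
    have h7 := mul_nonneg hn0.le (R_nonneg (v := (C + 5) * r / n) (by positivity) h41)
    have h8 : 0 ≤ (K + 3) * Real.log (n : ℝ) ^ 2 := by positivity
    nlinarith

/-- the upper half of the exponent of the tail at the scale `n ^ a` -/
def Up (T : ℕ → ℝ → ℝ) (θ a : ℝ) : Prop := ∀ ε : ℝ, 0 < ε → ∀ᶠ n : ℕ in atTop,
  T n ((n : ℝ) ^ a) ≤ Real.exp (-(n : ℝ) ^ ((a - θ) / (1 - θ) - ε))

/-- the lower half of the exponent of the tail at the scale `n ^ a` -/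
def Low (T : ℕ → ℝ → ℝ) (θ a : ℝ) : Prop := ∀ ε : ℝ, 0 < ε → ∀ᶠ n : ℕ in atTop,
  Real.exp (-(n : ℝ) ^ ((a - θ) / (1 - θ) + ε)) ≤ T n ((n : ℝ) ^ a)

theorem expo_eq {θ a : ℝ} (h1 : θ < 1) : (a - θ) / (1 - θ) = 1 - (1 - a) * (1 / (1 - θ)) := by
  have : 0 < 1 - θ := by linarith
  field_simp
  ring

theorem expo_eq' {θ a : ℝ} (h1 : θ < 1) (ha : a < 1) :
    (1 - (a - θ) / (1 - θ)) / (1 - a) = 1 / (1 - θ) := by
  have h2 : 0 < 1 - θ := by linarith
  have h3 : 0 < 1 - a := by linarith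
  rw [expo_eq h1]
  field_simp
  ring

/-- **Fisher's relation for a general size, upper half.** -/
theorem fisher_up_gen {T : ℕ → ℝ → ℝ} {C K : ℝ} (h : Cmp T C K) {θ : ℝ} (h0 : 0 < θ) (h1 : θ < 1) :
    (RateUp θ → ∀ a : ℝ, θ < a → a < 1 → Up T θ a) ∧
    (∀ a : ℝ, θ < a → a < 1 → Up T θ a → RateUp θ) := by
  have hs : 0 < 1 - θ := by linarith
  constructor
  · intro M a ha ha1 ε hε
    rw [expo_eq h1]
    have hb : 0 < 1 - (1 - a) * (1 / (1 - θ)) := by
      rw [← expo_eq h1]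
      exact div_pos (by linarith) hs
    exact gen_up h (by linarith) ha1 (by positivity) hb M hε
  · intro a ha ha1 A ε hε
    have hb : 0 < (a - θ) / (1 - θ) := div_pos (by linarith) hs
    have hb1 : (a - θ) / (1 - θ) < 1 := by rw [div_lt_one hs]; linarith
    have h2 := gen_rateUp h (by linarith) ha1 hb hb1 A hε
    rwa [expo_eq' h1 ha1] at h2

/-- **Fisher's relation for a general size, lower half.** -/
theorem fisher_low_gen {T : ℕ → ℝ → ℝ} {C K : ℝ} (h : Cmp T C K) {θ : ℝ} (h0 : 0 < θ)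
    (h1 : θ < 1) :
    (RateLow θ → ∀ a : ℝ, θ < a → a < 1 → Low T θ a) ∧
    (∀ a : ℝ, θ < a → a < 1 → Low T θ a → RateLow θ) := by
  have hs : 0 < 1 - θ := by linarith
  constructor
  · intro M a ha ha1 ε hε
    have hb : 0 < 1 - (1 - a) * (1 / (1 - θ)) := by
      rw [← expo_eq h1]
      exact div_pos (by linarith) hs
    rw [expo_eq h1]
    exact gen_low h (by linarith) ha1 (by positivity) M hε (by linarith)
  · intro a ha ha1 A ε hε
    have hb : 0 < (a - θ) / (1 - θ) := div_pos (by linarith) hs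
    have hb1 : (a - θ) / (1 - θ) < 1 := by rw [div_lt_one hs]; linarith
    have h2 := gen_rateLow h (by linarith) ha1 hb.le hb1 A hε
    rwa [expo_eq' h1 ha1] at h2

/-- lower bounds for the tail from the typical size -/
theorem rateLow_of_size {T : ℕ → ℝ → ℝ} {C K : ℝ} (h : Cmp T C K) {θ : ℝ} (h0 : 0 < θ)
    (h1 : θ < 1)
    (A : ∀ ε : ℝ, 0 < ε → ∀ δ : ℝ, 0 < δ → ∀ᶠ n : ℕ in atTop,
      Real.exp (-(n : ℝ) ^ δ) ≤ T n ((n : ℝ) ^ (θ - ε))) : RateLow θ := by
  intro ε hε
  have hs : 0 < 1 - θ := by linarith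
  have hp : 0 < 1 / (1 - θ) := by positivity
  -- choose `η` with `1 / (1 - θ + η) ≥ 1 / (1 - θ) - ε / 2`
  obtain ⟨η, hη⟩ : ∃ η, η = min (θ / 2) (ε / 2 * (1 - θ) ^ 2) := ⟨_, rfl⟩
  have hη0 : 0 < η := by rw [hη]; exact lt_min (by linarith) (by positivity)
  have hη1 : η ≤ θ / 2 := by rw [hη]; exact min_le_left _ _
  have hη2 : η ≤ ε / 2 * (1 - θ) ^ 2 := by rw [hη]; exact min_le_right _ _
  have h2 := gen_rateLow h (a := θ - η) (β := 0) (by linarith) (by linarith) le_rfl one_pos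
    (fun δ hδ => by simpa using A η hη0 δ hδ) (show 0 < ε / 2 by linarith)
  filter_upwards [h2, Ioo_mem_nhdsGT zero_lt_one] with v h3 h4
  refine h3.trans ?_
  apply Real.rpow_le_rpow_of_exponent_ge h4.1 h4.2.le
  have hd : 0 < 1 - (θ - η) := by linarith
  have h5 : 1 / (1 - θ) - ε / 2 ≤ (1 - 0) / (1 - (θ - η)) := by
    rw [sub_zero, le_div_iff₀ hd]
    have e : (1 / (1 - θ) - ε / 2) * (1 - (θ - η)) =
        1 + η / (1 - θ) - ε / 2 * (1 - θ + η) := by field_simp; ring
    rw [e]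
    have h6 : η / (1 - θ) ≤ ε / 2 * (1 - θ) := by
      rw [div_le_iff₀ hs]
      nlinarith
    nlinarith
  linarith

end Pool.Agent.X144.Fi
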