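import Pool.Agent.X144.Fi.Inst

/-!
# Lower bounds of the tail from lower bounds of the mean
-/

set_option autoImplicit false

namespace Pool.Agent.X144.Fi

open Pool.Agent.TH795.EP Pool.Agent.TH795.EP2 Pool.Agent.TH795.SE2 Pool.Agent.TH262.SawL Pool.Agent.Y981.L2 Pool.Agent.Y981.L2X H981 Finset Filter Topology

theorem size_of_mean {T : ℕ → ℝ → ℝ} {m : ℕ → ℝ} {j : ℕ} {B θ : ℝ} (hj : 1 ≤ j) (hB : 1 ≤ B)
    (hm : ∀ᶠ n : ℕ in atTop, ∀ r : ℝ, 0 ≤ r → m n ≤ r ^ j + B * (n : ℝ) ^ j * T n r)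
    (A : ∀ ε : ℝ, 0 < ε → ∀ᶠ n : ℕ in atTop, (n : ℝ) ^ (j * θ - ε) ≤ m n) :
    ∀ ε : ℝ, 0 < ε → ∀ δ : ℝ, 0 < δ → ∀ᶠ n : ℕ in atTop,
      Real.exp (-(n : ℝ) ^ δ) ≤ T n ((n : ℝ) ^ (θ - ε)) := by
  intro ε hε δ hδ
  have hj0 : (0 : ℝ) < j := by exact_mod_cast hj
  have hlt : j * (θ - ε) < j * θ - j * ε / 2 := by
    have : 0 < (j : ℝ) * ε := by positivity
    linarith
  obtain ⟨q, hq⟩ : ∃ q : ℝ, q = max (j - (j * θ - j * ε / 2)) 0 := ⟨_, rfl⟩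
  have hq0 : 0 ≤ q := by rw [hq]; exact le_max_right _ _
  have hq1 : j - (j * θ - j * ε / 2) ≤ q := by rw [hq]; exact le_max_left _ _
  filter_upwards [hm, A (j * ε / 2) (by positivity), ev_pow 2 hlt,
    ev_log (2 * q) (Real.log (2 * B)) hδ, eventually_ge_atTop 2] with n h1 h2 h3 h4 h5
  have hn0 : (0 : ℝ) < n := by exact_mod_cast (by omega : 0 < n)
  have hn2 : (2 : ℝ) ≤ n := by exact_mod_cast h5
  have h6 := h1 ((n : ℝ) ^ (θ - ε)) (by positivity)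
  have h7 : ((n : ℝ) ^ (θ - ε)) ^ j = (n : ℝ) ^ (j * (θ - ε)) := by
    rw [← Real.rpow_natCast, ← Real.rpow_mul hn0.le, mul_comm]
  rw [h7] at h6
  have h8 : (n : ℝ) ^ (j * θ - j * ε / 2) / 2 ≤ B * (n : ℝ) ^ j * T n ((n : ℝ) ^ (θ - ε)) := by
    linarith
  have h9 : 0 < B * (n : ℝ) ^ j := by positivity
  have h10 : (n : ℝ) ^ (j * θ - j * ε / 2) / 2 / (B * (n : ℝ) ^ j) ≤ T n ((n : ℝ) ^ (θ - ε)) := by
    rw [div_le_iff₀ h9]
    linarith
  refine le_trans ?_ h10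
  have hpos : 0 < (n : ℝ) ^ (j * θ - j * ε / 2) / 2 / (B * (n : ℝ) ^ j) := by positivity
  rw [← Real.le_log_iff_exp_le hpos, div_div, Real.log_div (by positivity) (by positivity),
    Real.log_rpow hn0]
  have e : (2 : ℝ) * (B * (n : ℝ) ^ j) = 2 * B * (n : ℝ) ^ j := by ring
  rw [e, Real.log_mul (by positivity) (by positivity), Real.log_pow]
  have hlog2 : Real.log 2 ≤ Real.log n := Real.log_le_log (by norm_num) hn2
  have hl2 := Real.log_two_gt_d9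
  have h11 : Real.log n ≤ 2 * Real.log n ^ 2 := by nlinarith
  have h12 : (j - (j * θ - j * ε / 2)) * Real.log n ≤ q * Real.log n :=
    mul_le_mul_of_nonneg_right hq1 (by linarith)
  have h13 := mul_le_mul_of_nonneg_left h11 hq0
  linarith

theorem rateLow_of_msd {θ : ℝ} (h0 : 0 < θ) (h1 : θ < 1)
    (A : ∀ ε : ℝ, 0 < ε → ∀ᶠ n : ℕ in atTop, (n : ℝ) ^ (2 * θ - ε) ≤ msd n) : RateLow θ := by
  obtain ⟨C, K, h⟩ := cmp_far
  refine rateLow_of_size h h0 h1 (size_of_mean (j := 2) (B := 1) (m := msd) (by norm_num) le_rfl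
    (Eventually.of_forall fun n r hr => ?_) (fun ε hε => ?_))
  · rw [one_mul]
    exact msd_le hr
  · have := A ε hε
    push_cast
    exact this

theorem rateLow_of_mw {θ : ℝ} (h0 : 0 < θ) (h1 : θ < 1)
    (A : ∀ ε : ℝ, 0 < ε → ∀ᶠ n : ℕ in atTop, (n : ℝ) ^ (θ - ε) ≤ mw n) : RateLow θ := by
  obtain ⟨C, K, h⟩ := cmp_pw
  obtain ⟨K0, -, hw⟩ := ln_le
  refine rateLow_of_size h h0 h1 (size_of_mean (j := 1) (B := 2) (m := mw) le_rfl (by norm_num)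
    ?_ (fun ε hε => ?_))
  · filter_upwards [eventually_ge_atTop 2] with n hn r hr
    rw [pow_one, pow_one]
    exact mw_le (by omega) hr (hw n hn).1
  · have := A ε hε
    push_cast
    rw [one_mul]
    exact this

theorem rateLow_of_ma {θ : ℝ} (h0 : 0 < θ) (h1 : θ < 1)
    (A : ∀ ε : ℝ, 0 < ε → ∀ᶠ n : ℕ in atTop, (n : ℝ) ^ (2 * θ - ε) ≤ ma n) : RateLow θ := by
  obtain ⟨C, K, h⟩ := cmp_par
  obtain ⟨K0, -, hw⟩ := ln_le
  refine rateLow_of_size h h0 h1 (size_of_mean (T := fun n r => par n (r ^ 2)) (j := 2) (B := 4)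
    (m := ma) (by norm_num) (by norm_num) ?_ (fun ε hε => ?_))
  · filter_upwards [eventually_ge_atTop 2] with n hn r hr
    exact ma_le (by omega) (sq_nonneg r) (hw n hn).1
  · have := A ε hε
    push_cast
    exact this

end Pool.Agent.X144.Fi
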