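import Pool.Agent.X144.Fi.Cost

/-!
# Point probabilities
-/

set_option autoImplicit false

namespace Pool.Agent.X144.Fi

open Pool.Agent.TH795.EP Pool.Agent.TH795.EP2 Pool.Agent.TH795.SE2 Pool.Agent.TH262.SawL Pool.Agent.Y981.L2 Pool.Agent.Y981.L2X H981 Finset Filter Topology

theorem point_exp : ∃ K : ℝ, 0 ≤ K ∧ ∀ n : ℕ, 2 ≤ n → ∀ x y : ℤ, (x, y) ≠ (0, 0) →
    (x + y - n) % 2 = 0 → ∀ v : ℝ, v ≤ 1 → ((|x| + |y| : ℤ) : ℝ) ≤ n * v →
    Real.exp (-(n * R v) - K * Real.log n ^ 2) ≤ (a n x y : ℝ) / c n := by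
  obtain ⟨K, hK, h⟩ := point_lower
  refine ⟨K, hK, fun n hn x y hx hpar v hv hxv => ?_⟩
  have hn0 : (0 : ℝ) < n := by exact_mod_cast (by omega : 0 < n)
  have h1 := h n hn x y hx hpar v hv hxv
  have hle : |x| + |y| ≤ n := by
    have h2 : ((|x| + |y| : ℤ) : ℝ) ≤ n := by
      refine hxv.trans ?_
      nlinarith
    exact_mod_cast h2
  have ha := one_le_a (n := n) hx hpar hle
  have ha' : (0 : ℝ) < a n x y := by exact_mod_cast ha
  have hc := c_pos n
  have h3 := Real.exp_le_exp.2 h1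
  rwa [Real.exp_log (by positivity)] at h3

/-- upper bound at every lattice point by the rate function on the axis -/
theorem point_upper : ∃ K : ℝ, 0 ≤ K ∧ ∀ n : ℕ, 2 ≤ n → ∀ x y : ℤ, (x, y) ≠ (0, 0) →
    ∀ v : ℝ, 0 ≤ v → n * v ≤ ((max |x| |y| : ℤ) : ℝ) →
    (a n x y : ℝ) / c n ≤ Real.exp (-(n * R v) + K * Real.log n ^ 2) := by
  obtain ⟨K, hK, hldp⟩ := ldp_words
  refine ⟨K, hK, fun n hn x y hx v hv0 hv => ?_⟩
  have hn0 : (0 : ℝ) < n := by exact_mod_cast (by omega : 0 < n)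
  have hc := c_pos n
  rcases Nat.eq_zero_or_pos (a n x y) with h0 | hpos
  · rw [h0]
    simp only [Nat.cast_zero, zero_div]
    exact (Real.exp_pos _).le
  · obtain ⟨w, hw, hwx, hwy, hl⟩ := exists_of_a hpos
    have hle := abs_add_abs_le w
    rw [hwx, hwy, hl] at hle
    have hpar : (x + y - n) % 2 = 0 := by
      have := parity w
      rw [hwx, hwy, hl] at this
      omega
    have h1 := (abs_le.1 (hldp n hn x y hx hpar hle)).2
    have ha' : (0 : ℝ) < a n x y := by exact_mod_cast hpos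
    have hD : (((x : ℝ) / n, (y : ℝ) / n) : ℝ × ℝ) ∈ Dia := by
      show |(x : ℝ) / n| + |(y : ℝ) / n| ≤ 1
      rw [abs_div, abs_div, abs_of_pos hn0, ← add_div, div_le_one hn0]
      exact_mod_cast hle
    have h2 := R_max_le hD
    simp only at h2
    have h3 : v ≤ max |(x : ℝ) / n| |(y : ℝ) / n| := by
      rw [abs_div, abs_div, abs_of_pos hn0, max_div_div_right hn0.le, le_div_iff₀ hn0]
      push_cast at hv
      linarith
    have h4 : max |(x : ℝ) / n| |(y : ℝ) / n| ≤ 1 := by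
      rw [abs_div, abs_div, abs_of_pos hn0, max_div_div_right hn0.le, div_le_one hn0]
      apply max_le
      · have := abs_nonneg y
        have h5 : |x| ≤ n := by omega
        exact_mod_cast h5
      · have := abs_nonneg x
        have h5 : |y| ≤ n := by omega
        exact_mod_cast h5
    have h5 := R_mono hv0 h3 h4
    have h6 := mul_le_mul_of_nonneg_left (h5.trans h2) hn0.le
    rw [← Real.exp_log (show (0 : ℝ) < (a n x y : ℝ) / c n by positivity)]
    apply Real.exp_le_exp.2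
    linarith

end Pool.Agent.X144.Fi
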