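import Pool.Agent.X144.Fi.Core

/-!
# Fisher's relation: the tail of the end point
-/

set_option autoImplicit false

namespace Pool.Agent.X144.Fi

open Pool.Agent.Y981.L2 Finset Filter Topology

theorem tendsto_cast_pow {a C : ℝ} (ha : a < 1) (hC : 0 < C) :
    Tendsto (fun n : ℕ => C * (n : ℝ) ^ (a - 1)) atTop (𝓝[>] 0) := by
  rw [tendsto_nhdsWithin_iff]
  constructor
  · have h1 : Tendsto (fun x : ℝ => x ^ (-(1 - a))) atTop (𝓝 0) :=
      tendsto_rpow_neg_atTop (by linarith)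
    have h2 := (h1.comp tendsto_natCast_atTop_atTop).const_mul C
    rw [mul_zero] at h2
    refine h2.congr ?_
    intro n
    simp only [Function.comp]
    have : -(1 - a) = a - 1 := by ring
    rw [this]
  · filter_upwards [eventually_ge_atTop 1] with n hn
    have hn0 : (0 : ℝ) < n := by exact_mod_cast hn
    have : 0 < C * (n : ℝ) ^ (a - 1) := by positivity
    exact this

/-- an upper bound with a general main term is enough -/
theorem absorb_up {α β K D C : ℝ} (hβ : 0 < β) (h : α < β) (hC : 0 < C) :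
    ∀ᶠ n : ℕ in atTop, (n : ℝ) ^ α + (K * Real.log n ^ 2 + D) ≤ C * (n : ℝ) ^ β := by
  have h2 : max α (β / 2) < β := max_lt h (by linarith)
  have h3 : 0 < max α (β / 2) := lt_of_lt_of_le (by linarith) (le_max_right _ _)
  filter_upwards [ev_pow (2 / C) h2, ev_log K D h3, eventually_ge_atTop 1] with n hn1 hn2 hn3
  have hn1' : (1 : ℝ) ≤ n := by exact_mod_cast hn3
  have h4 : (n : ℝ) ^ α ≤ (n : ℝ) ^ (max α (β / 2)) :=
    Real.rpow_le_rpow_of_exponent_le hn1' (le_max_left _ _)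
  have h5 : 2 * (n : ℝ) ^ (max α (β / 2)) ≤ C * (n : ℝ) ^ β := by
    have := mul_le_mul_of_nonneg_left hn1 hC.le
    have e : C * (2 / C * (n : ℝ) ^ (max α (β / 2))) = 2 * (n : ℝ) ^ (max α (β / 2)) := by
      field_simp
    linarith
  linarith

theorem tailUp_of_massLow {θ : ℝ} (h0 : 0 < θ) (h1 : θ < 1) (M : MassLow θ) : TailUp θ := by
  intro a ha ha1 ε hε
  obtain ⟨K, hK, hfar⟩ := far_le
  have hs : 0 < 1 - θ := by linarith
  obtain ⟨b, hb⟩ : ∃ b, b = (a - θ) / (1 - θ) := ⟨_, rfl⟩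
  have hb0 : 0 < b := by rw [hb]; exact div_pos (by linarith) hs
  obtain ⟨δ, hδ⟩ : ∃ δ, δ = min (ε / 2) (b / 2) := ⟨_, rfl⟩
  have hδ0 : 0 < δ := by rw [hδ]; exact lt_min (by linarith) (by linarith)
  have hδε : δ ≤ ε / 2 := by rw [hδ]; exact min_le_left _ _
  have hδb : δ ≤ b / 2 := by rw [hδ]; exact min_le_right _ _
  have hp : 0 < 1 / (1 - θ) := by positivity
  have hpp : 1 / (1 - θ) * (1 - θ) = 1 := by field_simp
  obtain ⟨q, hq⟩ : ∃ q, q = 1 / (1 - θ) + δ := ⟨_, rfl⟩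
  have hq0 : 0 < q := by rw [hq]; positivity
  have hq1 : 1 / q < 1 - θ := by
    rw [div_lt_iff₀ hq0, hq]
    nlinarith
  have hη : 0 < 1 - θ - 1 / q := by linarith
  obtain ⟨b', hb'⟩ : ∃ b', b' = 1 - (1 - a) * q := ⟨_, rfl⟩
  have hbb : b' = b - (1 - a) * δ := by
    rw [hb', hq, hb]
    field_simp
    ring
  have haδ : (1 - a) * δ ≤ δ := by nlinarith
  have hb'0 : 0 < b' := by rw [hbb]; linarith
  have hb'ε : b - ε < b' := by rw [hbb]; linarith
  have hmap : Tendsto (fun n : ℕ => (1 / 16 * (n : ℝ) ^ (a - 1)) ^ q) atTop (𝓝[>] 0) := by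
    have h2 := (tendsto_pow_zero (C := 1) one_pos hq0).comp
      (tendsto_cast_pow (a := a) (C := 1 / 16) ha1 (by norm_num))
    refine h2.congr ?_
    intro n
    simp only [Function.comp, one_mul]
  have hc0 : (0 : ℝ) < 3 * (1 / 16) ^ q := by positivity
  filter_upwards [hmap.eventually (M _ hη), absorb_up (K := K) (D := 2) hb'0 hb'ε hc0,
    eventually_ge_atTop 2] with n h2 h3 hn
  have hn0 : (0 : ℝ) < n := by exact_mod_cast (by omega : 0 < n)
  obtain ⟨e, he⟩ : ∃ e, e = (1 / 16 * (n : ℝ) ^ (a - 1)) ^ q := ⟨_, rfl⟩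
  rw [← he] at h2
  have he0 : 0 < e := by rw [he]; positivity
  have hm := mass_pos he0
  have h5 : e ^ (1 / q) = 1 / 16 * (n : ℝ) ^ (a - 1) := by
    rw [he, ← Real.rpow_mul (by positivity), mul_one_div_cancel hq0.ne', Real.rpow_one]
  have h6 : e ^ (θ + (1 - θ - 1 / q)) * (1 / 16 * (n : ℝ) ^ (a - 1)) = e := by
    rw [← h5, ← Real.rpow_add he0]
    have : θ + (1 - θ - 1 / q) + 1 / q = 1 := by ring
    rw [this, Real.rpow_one]
  have h7 : (n : ℝ) ^ a = (n : ℝ) ^ (a - 1) * n := by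
    rw [← Real.rpow_add_one hn0.ne']
    congr 1; ring
  have h8 : e ^ (θ + (1 - θ - 1 / q)) * (n : ℝ) ^ a = 16 * (n * e) := by
    rw [h7]
    calc e ^ (θ + (1 - θ - 1 / q)) * ((n : ℝ) ^ (a - 1) * n)
        = 16 * (n * (e ^ (θ + (1 - θ - 1 / q)) * (1 / 16 * (n : ℝ) ^ (a - 1)))) := by ring
      _ = 16 * (n * e) := by rw [h6]
  have hna : 0 < (n : ℝ) ^ a := Real.rpow_pos_of_pos hn0 _
  have h9 : 16 * (n * e) ≤ mass e * (n : ℝ) ^ a := by
    rw [← h8]
    exact mul_le_mul_of_nonneg_right h2 hna.le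
  have h10 := psi_le_of_lt he0.le (h := mass e / 2) (by linarith) (by linarith)
  refine (hfar n hn ((n : ℝ) ^ a) (mass e / 2) (by linarith)).trans (Real.exp_le_exp.2 ?_)
  have h11 := mul_le_mul_of_nonneg_left h10 hn0.le
  have h12 : (n : ℝ) * e = (1 / 16) ^ q * (n : ℝ) ^ b' := by
    rw [he, Real.mul_rpow (by norm_num) (Real.rpow_nonneg hn0.le _), ← Real.rpow_mul hn0.le]
    have e1 : (n : ℝ) ^ b' = n * (n : ℝ) ^ ((a - 1) * q) := by
      have : b' = 1 + (a - 1) * q := by rw [hb']; ring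
      rw [this, Real.rpow_add hn0, Real.rpow_one]
    rw [e1]
    ring
  have h13 : mass e / 2 * (n : ℝ) ^ a / 2 = mass e * (n : ℝ) ^ a / 4 := by ring
  rw [h13]
  rw [← hb]
  have h14 : 3 * (n * e) = 3 * (1 / 16) ^ q * (n : ℝ) ^ b' := by rw [h12]; ring
  linarith

theorem tailLow_of_rateLow {θ : ℝ} (h0 : 0 < θ) (h1 : θ < 1) (M : RateLow θ) : TailLow θ := by
  intro a ha ha1 ε hε
  obtain ⟨K, hK, hfar⟩ := le_far
  have hs : 0 < 1 - θ := by linarith
  have hp : 0 < 1 / (1 - θ) := by positivity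
  obtain ⟨b, hb⟩ : ∃ b, b = (a - θ) / (1 - θ) := ⟨_, rfl⟩
  have hb0 : 0 < b := by rw [hb]; exact div_pos (by linarith) hs
  obtain ⟨δ, hδ⟩ : ∃ δ, δ = min (ε / 2) (1 / (1 - θ) / 2) := ⟨_, rfl⟩
  have hδ0 : 0 < δ := by rw [hδ]; exact lt_min (by linarith) (by linarith)
  have hδε : δ ≤ ε / 2 := by rw [hδ]; exact min_le_left _ _
  have hδp : δ ≤ 1 / (1 - θ) / 2 := by rw [hδ]; exact min_le_right _ _
  obtain ⟨q, hq⟩ : ∃ q, q = 1 / (1 - θ) - δ := ⟨_, rfl⟩
  have hq0 : 0 < q := by rw [hq]; linarith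
  obtain ⟨b', hb'⟩ : ∃ b', b' = 1 - (1 - a) * q := ⟨_, rfl⟩
  have hbb : b' = b + (1 - a) * δ := by
    rw [hb', hq, hb]
    field_simp
    ring
  have haδ : (1 - a) * δ ≤ δ := by nlinarith
  have hb'ε : b' < b + ε := by rw [hbb]; linarith
  have hc0 : (0 : ℝ) < 1 / 2 ^ q := by positivity
  have hbe : 0 < b + ε := by linarith
  filter_upwards [(tendsto_cast_pow (a := a) (C := 2) ha1 (by norm_num)).eventually (M δ hδ0),
    ev_pow 2 (show (0 : ℝ) < a by linarith), ev_pow 2 ha1, ev_pow (2 * 2 ^ q) hb'ε,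
    ev_log (2 * K) 0 hbe, eventually_ge_atTop 2] with n h2 h3 h4 h5 h6 hn
  have hn0 : (0 : ℝ) < n := by exact_mod_cast (by omega : 0 < n)
  rw [Real.rpow_zero, mul_one] at h3
  rw [Real.rpow_one] at h4
  rw [← hq] at h2
  have h7 : (n : ℝ) ^ a = (n : ℝ) ^ (a - 1) * n := by
    rw [← Real.rpow_add_one hn0.ne']
    congr 1; ring
  obtain ⟨k, hk1, hk2, hk3⟩ := adjust n (x := (n : ℝ) ^ a + 2) (by linarith)
  have hk4 : (n : ℝ) ^ a ≤ k := by linarith
  have hk5 : (k : ℝ) ≤ 2 * (n : ℝ) ^ a := by linarith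
  have hk6 : k ≤ n := by
    have : (k : ℝ) ≤ n := hk5.trans h4
    exact_mod_cast this
  have hk7 : 1 ≤ k := by
    have : (1 : ℝ) ≤ k := by linarith
    exact_mod_cast this
  refine le_trans (Real.exp_le_exp.2 ?_) (hfar n k hn hk7 hk6 hk3 ((n : ℝ) ^ a) hk4)
  have h8 : (k : ℝ) / n ≤ 2 * (n : ℝ) ^ (a - 1) := by
    rw [div_le_iff₀ hn0]
    rw [h7] at hk5
    linarith
  have h9 : 2 * (n : ℝ) ^ (a - 1) ≤ 1 := by
    rw [h7] at h4
    by_contra hcon
    push Not at hcon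
    nlinarith
  have h10 := R_mono (v := (k : ℝ) / n) (v' := 2 * (n : ℝ) ^ (a - 1)) (by positivity) h8 h9
  have h11 : n * R ((k : ℝ) / n) ≤ 2 ^ q * (n : ℝ) ^ b' := by
    have h12 := mul_le_mul_of_nonneg_left (h10.trans h2) hn0.le
    refine h12.trans (le_of_eq ?_)
    rw [Real.mul_rpow (by norm_num) (Real.rpow_nonneg hn0.le _), ← Real.rpow_mul hn0.le]
    have e1 : (n : ℝ) ^ b' = n * (n : ℝ) ^ ((a - 1) * q) := by
      have : b' = 1 + (a - 1) * q := by rw [hb']; ring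
      rw [this, Real.rpow_add hn0, Real.rpow_one]
    rw [e1]
    ring
  rw [← hb]
  linarith

theorem massLow_of_tailUp {θ : ℝ} (h0 : 0 < θ) (h1 : θ < 1) (A : TailUp θ) : MassLow θ := by
  apply sizeUp_massLow h0 h1
  intro ε hε
  have hs : 0 < 1 - θ := by linarith
  obtain ⟨a, ha⟩ : ∃ a, a = θ + min ε ((1 - θ) / 2) := ⟨_, rfl⟩
  have hm : 0 < min ε ((1 - θ) / 2) := lt_min hε (by linarith)
  have hm1 : min ε ((1 - θ) / 2) ≤ ε := min_le_left _ _
  have hm2 : min ε ((1 - θ) / 2) ≤ (1 - θ) / 2 := min_le_right _ _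
  obtain ⟨b, hb⟩ : ∃ b, b = (a - θ) / (1 - θ) := ⟨_, rfl⟩
  have hb0 : 0 < b := by rw [hb]; exact div_pos (by linarith) hs
  refine ⟨b / 2, by linarith, ?_⟩
  filter_upwards [A a (by linarith) (by linarith) (b / 2) (by linarith), eventually_ge_atTop 1]
    with n hn hn1
  have hn1' : (1 : ℝ) ≤ n := by exact_mod_cast hn1
  rw [← hb] at hn
  have e : b - b / 2 = b / 2 := by ring
  rw [e] at hn
  refine le_trans (far_anti ?_) hn
  exact Real.rpow_le_rpow_of_exponent_le hn1' (by linarith)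

theorem massUp_of_tailLow {θ : ℝ} (h0 : 0 < θ) (h1 : θ < 1) (A : TailLow θ) : MassUp θ := by
  apply sizeLow_massUp h0 h1
  intro ε hε δ hδ
  have hs : 0 < 1 - θ := by linarith
  obtain ⟨b, hb⟩ : ∃ b, b = min (δ / 3) (1 / 2) := ⟨_, rfl⟩
  have hb0 : 0 < b := by rw [hb]; exact lt_min (by linarith) (by norm_num)
  have hb1 : b ≤ δ / 3 := by rw [hb]; exact min_le_left _ _
  have hb2 : b ≤ 1 / 2 := by rw [hb]; exact min_le_right _ _
  obtain ⟨a, ha⟩ : ∃ a, a = θ + (1 - θ) * b := ⟨_, rfl⟩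
  have hba : (a - θ) / (1 - θ) = b := by
    rw [ha]
    field_simp
    ring
  have ha0 : θ < a := by rw [ha]; nlinarith
  have ha1 : a < 1 := by rw [ha]; nlinarith
  filter_upwards [A a ha0 ha1 (δ / 3) (by linarith), eventually_ge_atTop 1] with n hn hn1
  have hn1' : (1 : ℝ) ≤ n := by exact_mod_cast hn1
  rw [hba] at hn
  refine le_trans (Real.exp_le_exp.2 ?_) (hn.trans (far_anti ?_))
  · have := Real.rpow_le_rpow_of_exponent_le hn1' (show b + δ / 3 ≤ δ by linarith)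
    linarith
  · exact Real.rpow_le_rpow_of_exponent_le hn1' (by linarith)

/-- **Fisher's relation, upper half.** -/
theorem fisher_up {θ : ℝ} (h0 : 0 < θ) (h1 : θ < 1) :
    (MassLow θ ↔ TailUp θ) ∧ (MassLow θ ↔ RateUp θ) :=
  ⟨⟨tailUp_of_massLow h0 h1, massLow_of_tailUp h0 h1⟩,
    ⟨rateUp_of_massLow h1, massLow_of_rateUp h0 h1⟩⟩

/-- **Fisher's relation, lower half.** -/
theorem fisher_low {θ : ℝ} (h0 : 0 < θ) (h1 : θ < 1) :
    (MassUp θ ↔ TailLow θ) ∧ (MassUp θ ↔ RateLow θ) :=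
  ⟨⟨fun M => tailLow_of_rateLow h0 h1 (rateLow_of_massUp h0 h1 M), massUp_of_tailLow h0 h1⟩,
    ⟨rateLow_of_massUp h0 h1, massUp_of_rateLow h1⟩⟩

end Pool.Agent.X144.Fi
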