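import Pool.Agent.Y981.L2X.Dir
import Pool.Agent.X144.Fi.Tail

/-!
# The rate function in all directions
-/

set_option autoImplicit false

namespace Pool.Agent.X144.Fi

open Pool.Agent.Y981.L2 Pool.Agent.Y981.L2X Finset Filter Topology

theorem dia_sw {v : ℝ × ℝ} (hv : v ∈ Dia) : (v.2, v.1) ∈ Dia := by
  have h : |v.1| + |v.2| ≤ 1 := hv
  show |v.2| + |v.1| ≤ 1
  linarith

theorem Rate_sw_le {v : ℝ × ℝ} (hv : v ∈ Dia) : Rate (v.2, v.1) ≤ Rate v := by
  apply ciSup_le
  intro h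
  have h1 := le_rate hv (h.2, h.1)
  rw [Lam_sw] at h1
  simp only at h1 ⊢
  linarith

theorem Rate_sw {v : ℝ × ℝ} (hv : v ∈ Dia) : Rate (v.2, v.1) = Rate v :=
  le_antisymm (Rate_sw_le hv) (Rate_sw_le (dia_sw hv))

theorem Lam_sign {s t : ℝ} (hs : s = 1 ∨ s = -1) (ht : t = 1 ∨ t = -1) (h : ℝ × ℝ) :
    Lam (s * h.1, t * h.2) = Lam h := by
  have e1 : Lam (s * h.1, t * h.2) = Lam (h.1, t * h.2) := by
    rcases hs with rfl | rfl
    · rw [one_mul]
    · have := Lam_sg (h.1, t * h.2)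
      simp only at this
      rw [neg_one_mul, this]
  rw [e1]
  rcases ht with rfl | rfl
  · rw [one_mul]
  · have := Lam_ng h
    rw [neg_one_mul, this]

theorem Rate_sign {s t : ℝ} (hs : s = 1 ∨ s = -1) (ht : t = 1 ∨ t = -1) {v : ℝ × ℝ} (hv : v ∈ Dia) :
    Rate (s * v.1, t * v.2) ≤ Rate v := by
  apply ciSup_le
  intro h
  have h1 := le_rate hv (s * h.1, t * h.2)
  rw [Lam_sign hs ht] at h1
  simp only at h1 ⊢
  linarith

theorem exists_sign (x : ℝ) : ∃ s : ℝ, (s = 1 ∨ s = -1) ∧ x = s * |x| := by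
  rcases abs_cases x with ⟨h1, _⟩ | ⟨h1, _⟩
  · exact ⟨1, Or.inl rfl, by rw [h1]; ring⟩
  · exact ⟨-1, Or.inr rfl, by rw [h1]; ring⟩

theorem Rate_le_abs {v : ℝ × ℝ} (hv : v ∈ Dia) : Rate v ≤ Rate (|v.1|, |v.2|) := by
  obtain ⟨s, hs, hs2⟩ := exists_sign v.1
  obtain ⟨t, ht, ht2⟩ := exists_sign v.2
  have h1 : ((|v.1|, |v.2|) : ℝ × ℝ) ∈ Dia := by
    show |(|v.1|)| + |(|v.2|)| ≤ 1
    rw [abs_abs, abs_abs]
    exact hv
  have h2 := Rate_sign hs ht h1
  simp only at h2
  rw [← hs2, ← ht2] at h2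
  exact h2

theorem Rate_le_R_aux {a b : ℝ} (h1 : 0 ≤ a) (h2 : 0 ≤ b) (h0 : a + b ≤ 1) :
    Rate (a, b) ≤ R (a + b) := by
  rcases eq_or_lt_of_le (show 0 ≤ a + b by linarith) with h3 | h3
  · have ha0 : a = 0 := by linarith
    have hb0 : b = 0 := by linarith
    rw [ha0, hb0, add_zero]
    exact le_rfl
  · have hd1 : ((a + b, 0) : ℝ × ℝ) ∈ Dia := dia_one h3.le h0
    have hd2 : ((0, a + b) : ℝ × ℝ) ∈ Dia := dia_sw hd1
    have h4 := convex_rate.2 hd1 hd2 (show 0 ≤ a / (a + b) by positivity)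
      (show 0 ≤ b / (a + b) by positivity) (by field_simp)
    have e : (a / (a + b)) • ((a + b, 0) : ℝ × ℝ) + (b / (a + b)) • ((0, a + b) : ℝ × ℝ) =
        (a, b) := by
      ext
      · simp only [Prod.fst_add, Prod.smul_fst, smul_eq_mul, mul_zero, add_zero]
        field_simp
      · simp only [Prod.snd_add, Prod.smul_snd, smul_eq_mul, mul_zero, zero_add]
        field_simp
    rw [e] at h4
    have h5 : Rate (0, a + b) = R (a + b) := Rate_sw hd1
    have h6 : Rate (a + b, 0) = R (a + b) := rfl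
    rw [h5, h6] at h4
    simp only [smul_eq_mul] at h4
    have h7 : a / (a + b) * R (a + b) + b / (a + b) * R (a + b) = R (a + b) := by
      rw [← add_mul, ← add_div, div_self h3.ne', one_mul]
    linarith

/-- upper bound in all directions -/
theorem Rate_le_R {v : ℝ × ℝ} (hv : v ∈ Dia) : Rate v ≤ R (|v.1| + |v.2|) :=
  (Rate_le_abs hv).trans (Rate_le_R_aux (abs_nonneg _) (abs_nonneg _) hv)

/-- lower bound in all directions -/
theorem R_max_le {v : ℝ × ℝ} (hv : v ∈ Dia) : R (max |v.1| |v.2|) ≤ Rate v := by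
  rcases max_cases |v.1| |v.2| with ⟨h, _⟩ | ⟨h, _⟩
  · rw [h]
    exact R_le_rate hv
  · rw [h]
    have := R_le_rate (dia_sw hv)
    rw [Rate_sw hv] at this
    exact this

/-- Euclidean length -/
noncomputable def len (v : ℝ × ℝ) : ℝ := Real.sqrt (v.1 ^ 2 + v.2 ^ 2)

theorem len_nonneg (v : ℝ × ℝ) : 0 ≤ len v := Real.sqrt_nonneg _

theorem max_le_len (v : ℝ × ℝ) : max |v.1| |v.2| ≤ len v := by
  unfold len
  apply max_le
  · rw [← Real.sqrt_sq_eq_abs]
    exact Real.sqrt_le_sqrt (by nlinarith [sq_nonneg v.2])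
  · rw [← Real.sqrt_sq_eq_abs]
    exact Real.sqrt_le_sqrt (by nlinarith [sq_nonneg v.1])

theorem len_le_two_max (v : ℝ × ℝ) : len v ≤ 2 * max |v.1| |v.2| := by
  unfold len
  have h1 := le_max_left |v.1| |v.2|
  have h2 := le_max_right |v.1| |v.2|
  have h0 := abs_nonneg v.1
  have h0' := abs_nonneg v.2
  apply Real.sqrt_le_iff.2
  constructor
  · linarith
  · rw [← sq_abs v.1, ← sq_abs v.2]
    nlinarith

theorem sum_le_two_len (v : ℝ × ℝ) : |v.1| + |v.2| ≤ 2 * len v := by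
  have h := max_le_len v
  have h1 := le_max_left |v.1| |v.2|
  have h2 := le_max_right |v.1| |v.2|
  linarith

theorem len_pos {v : ℝ × ℝ} (hv : v ≠ 0) : 0 < len v := by
  have h : 0 < max |v.1| |v.2| := by
    by_contra hcon
    push Not at hcon
    have h1 := le_max_left |v.1| |v.2|
    have h2 := le_max_right |v.1| |v.2|
    apply hv
    ext
    · exact abs_eq_zero.1 (le_antisymm (by linarith) (abs_nonneg _))
    · exact abs_eq_zero.1 (le_antisymm (by linarith) (abs_nonneg _))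
  exact h.trans_le (max_le_len v)

theorem len_axis {v : ℝ} (hv : 0 ≤ v) : len (v, 0) = v := by
  unfold len
  simp only [ne_eq, OfNat.ofNat_ne_zero, not_false_eq_true, zero_pow, add_zero]
  exact Real.sqrt_sq hv

theorem tendsto_len : Tendsto len (𝓝[≠] (0 : ℝ × ℝ)) (𝓝[>] 0) := by
  rw [tendsto_nhdsWithin_iff]
  constructor
  · have h1 : Continuous len := by unfold len; fun_prop
    have h2 := h1.tendsto (0 : ℝ × ℝ)
    have h3 : len 0 = 0 := by unfold len; simp
    rw [h3] at h2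
    exact h2.mono_left nhdsWithin_le_nhds
  · filter_upwards [self_mem_nhdsWithin] with v hv
    exact len_pos hv

theorem tendsto_max : Tendsto (fun v : ℝ × ℝ => max |v.1| |v.2|) (𝓝[≠] (0 : ℝ × ℝ)) (𝓝[>] 0) := by
  rw [tendsto_nhdsWithin_iff]
  constructor
  · have h1 : Continuous (fun v : ℝ × ℝ => max |v.1| |v.2|) := by fun_prop
    have h2 := h1.tendsto (0 : ℝ × ℝ)
    have h3 : max |(0 : ℝ × ℝ).1| |(0 : ℝ × ℝ).2| = 0 := by simp
    simp only [h3] at h2
    exact h2.mono_left nhdsWithin_le_nhds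
  · filter_upwards [self_mem_nhdsWithin] with v hv
    have h1 := len_pos hv
    have h2 := len_le_two_max v
    show (0 : ℝ) < max |v.1| |v.2|
    linarith

theorem tendsto_axis : Tendsto (fun v : ℝ => ((v, 0) : ℝ × ℝ)) (𝓝[>] 0) (𝓝[≠] 0) := by
  rw [tendsto_nhdsWithin_iff]
  constructor
  · have h1 : Continuous (fun v : ℝ => ((v, 0) : ℝ × ℝ)) := by fun_prop
    have h2 := h1.tendsto (0 : ℝ)
    exact h2.mono_left nhdsWithin_le_nhds
  · filter_upwards [self_mem_nhdsWithin] with v hv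
    have : (0 : ℝ) < v := hv
    intro h
    have := congrArg Prod.fst h
    simp at this
    linarith

theorem mem_dia_ev : ∀ᶠ v in 𝓝[≠] (0 : ℝ × ℝ), v ∈ Dia ∧ len v < 1 := by
  filter_upwards [tendsto_len.eventually (Ioo_mem_nhdsGT (show (0 : ℝ) < 1 / 2 by norm_num))]
    with v hv
  have h1 := sum_le_two_len v
  constructor
  · show |v.1| + |v.2| ≤ 1
    linarith [hv.2]
  · linarith [hv.2]

/-- **The exponent of the rate function in all directions, upper half.** -/
theorem rateUp_iff {θ : ℝ} :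
    RateUp θ ↔ ∀ ε : ℝ, 0 < ε → ∀ᶠ v in 𝓝[≠] (0 : ℝ × ℝ), len v ^ (1 / (1 - θ) + ε) ≤ Rate v := by
  constructor
  · intro M ε hε
    obtain ⟨q, hq⟩ : ∃ q, q = 1 / (1 - θ) + ε / 2 := ⟨_, rfl⟩
    have h1 := tendsto_max.eventually (M (ε / 2) (by linarith))
    have h2 := tendsto_max.eventually (ev_small (2 ^ (q + ε / 2)) (show q < q + ε / 2 by linarith))
    filter_upwards [h1, h2, mem_dia_ev, self_mem_nhdsWithin] with v h3 h4 h5 h6
    obtain ⟨h5, h7⟩ := h5
    rw [← hq] at h3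
    obtain ⟨m, hm⟩ : ∃ m, m = max |v.1| |v.2| := ⟨_, rfl⟩
    have h8 := R_max_le h5
    have h9 := len_le_two_max v
    have h10 := len_pos h6
    rw [← hm] at h3 h4 h8 h9
    have hm0 : 0 < m := by linarith
    have e1 : 1 / (1 - θ) + ε = q + ε / 2 := by rw [hq]; ring
    rw [e1]
    rcases le_or_gt 0 (q + ε / 2) with h11 | h11
    · calc len v ^ (q + ε / 2) ≤ (2 * m) ^ (q + ε / 2) :=
            Real.rpow_le_rpow h10.le h9 h11
        _ = 2 ^ (q + ε / 2) * m ^ (q + ε / 2) := Real.mul_rpow (by norm_num) hm0.le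
        _ ≤ m ^ q := h4
        _ ≤ R m := h3
        _ ≤ Rate v := h8
    · have hml : m ≤ len v := by rw [hm]; exact max_le_len v
      have hm1 : m ≤ 1 := by linarith
      calc len v ^ (q + ε / 2) ≤ m ^ (q + ε / 2) :=
            Real.rpow_le_rpow_of_nonpos hm0 hml h11.le
        _ ≤ m ^ q := Real.rpow_le_rpow_of_exponent_ge hm0 hm1 (by linarith)
        _ ≤ R m := h3
        _ ≤ Rate v := h8
  · intro M ε hε
    filter_upwards [tendsto_axis.eventually (M ε hε), self_mem_nhdsWithin] with v h1 h2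
    have : (0 : ℝ) < v := h2
    rw [len_axis this.le] at h1
    exact h1

/-- **The exponent of the rate function in all directions, lower half.** -/
theorem rateLow_iff {θ : ℝ} (hθ : θ < 1) :
    RateLow θ ↔ ∀ ε : ℝ, 0 < ε → ∀ᶠ v in 𝓝[≠] (0 : ℝ × ℝ), Rate v ≤ len v ^ (1 / (1 - θ) - ε) := by
  have hs : 0 < 1 - θ := by linarith
  have hp : 0 < 1 / (1 - θ) := by positivity
  constructor
  · intro M ε hε
    obtain ⟨δ, hδ⟩ : ∃ δ, δ = min (ε / 2) (1 / (1 - θ) / 2) := ⟨_, rfl⟩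
    have hδ0 : 0 < δ := by rw [hδ]; exact lt_min (by linarith) (by linarith)
    have hδε : δ ≤ ε / 2 := by rw [hδ]; exact min_le_left _ _
    have hδp : δ ≤ 1 / (1 - θ) / 2 := by rw [hδ]; exact min_le_right _ _
    obtain ⟨q, hq⟩ : ∃ q, q = 1 / (1 - θ) - δ := ⟨_, rfl⟩
    have hq0 : 0 < q := by rw [hq]; linarith
    have hqε : 1 / (1 - θ) - ε < q := by rw [hq]; linarith
    have hmap : Tendsto (fun v : ℝ × ℝ => 2 * len v) (𝓝[≠] (0 : ℝ × ℝ)) (𝓝[>] 0) := by
      have h1 := (tendsto_pow_zero (C := 2) (by norm_num) one_pos).comp tendsto_len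
      refine h1.congr ?_
      intro v
      simp only [Function.comp, Real.rpow_one]
    have h1 := hmap.eventually (M δ hδ0)
    have h2 := tendsto_len.eventually (ev_small (2 ^ q) hqε)
    have h3 := hmap.eventually (Ioo_mem_nhdsGT zero_lt_one)
    filter_upwards [h1, h2, h3, mem_dia_ev, self_mem_nhdsWithin] with v h4 h5 h6 h7 h8
    obtain ⟨h7, -⟩ := h7
    rw [← hq] at h4
    have h9 := len_pos h8
    calc Rate v ≤ R (|v.1| + |v.2|) := Rate_le_R h7
      _ ≤ R (2 * len v) := R_mono (by positivity) (sum_le_two_len v) h6.2.le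
      _ ≤ (2 * len v) ^ q := h4
      _ = 2 ^ q * len v ^ q := Real.mul_rpow (by norm_num) h9.le
      _ ≤ len v ^ (1 / (1 - θ) - ε) := h5
  · intro M ε hε
    filter_upwards [tendsto_axis.eventually (M ε hε), self_mem_nhdsWithin] with v h1 h2
    have : (0 : ℝ) < v := h2
    rw [len_axis this.le] at h1
    exact h1

end Pool.Agent.X144.Fi
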